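import Pool.Agent.MP_8c2300_lc.Defs
import Pool.Agent.Lib.helper82.StackMachine

-- ======== part 0: formerly Pool.Agent.MP_8c2300_lc.Orc
section MrgPart0

/-!
Abstract query algorithms, systems of coded requirements and the oracle they define.
-/

namespace Pool.Agent.MP_8c2300_lc

open Classical

/-- A query algorithm: a verdict and a set of queries, with the use principle. -/
structure Alg where
  val : (Str → Bool) → Prop
  qs : (Str → Bool) → Finset Str
  use : ∀ A B : Str → Bool, (∀ s ∈ qs A, B s = A s) → (val B ↔ val A) ∧ qs B = qs A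

/-- At most `w` queries, each of length at most `w`. -/
def Alg.Bdd (t : Alg) (w : ℕ) : Prop :=
  ∀ A, (t.qs A).card ≤ w ∧ ∀ s ∈ t.qs A, s.length ≤ w

theorem Alg.Bdd.mono {t : Alg} {w w' : ℕ} (h : t.Bdd w) (hw : w ≤ w') : t.Bdd w' :=
  fun A => ⟨(h A).1.trans hw, fun s hs => ((h A).2 s hs).trans hw⟩

theorem Alg.Bdd.loc {t : Alg} {w : ℕ} (h : t.Bdd w) {A B : Str → Bool}
    (hAB : ∀ s : Str, s.length ≤ w → B s = A s) : t.val B ↔ t.val A :=
  (t.use A B (fun s hs => hAB s ((h A).2 s hs))).1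

/-- A system of requirements to be coded in the oracle. -/
structure Sys where
  mode : ℕ → Option Bool
  yes : ℕ → Str → Str → Alg
  no : ℕ → Str → Str → Alg
  bd : ℕ → Str → ℕ
  code : ℕ → Str → Str
  hyes : ∀ i z w, (yes i z w).Bdd (bd i z)
  hno : ∀ i z w, (no i z w).Bdd (bd i z)
  code_inj : ∀ i z i' z', code i z = code i' z' → i = i' ∧ z = z'
  len1 : ∀ i z, bd i z ^ 2 ≤ (code i z).length
  len2 : ∀ i z, 2 ^ z.length ≤ (code i z).length

theorem exists_fix (Φ : (Str → Bool) → Str → Bool)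
    (h : ∀ A B s, (∀ t : Str, t.length < s.length → A t = B t) → Φ A s = Φ B s) :
    ∃ A, Φ A = A := by
  let F : ℕ → Str → Bool := fun n => Φ^[n] (fun _ => false)
  have h1 : ∀ n m (s : Str), s.length < n → s.length < m → F n s = F m s := by
    intro n
    induction n with
    | zero => intro m s hs; omega
    | succ n ih =>
      intro m s hn hm
      obtain ⟨m, rfl⟩ : ∃ m', m = m' + 1 := ⟨m - 1, by omega⟩
      simp only [F, Function.iterate_succ_apply']
      exact h _ _ _ (fun t ht => ih m t (by omega) (by omega))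
  refine ⟨fun s => F (s.length + 1) s, funext fun s => ?_⟩
  simp only [F, Function.iterate_succ_apply']
  refine h _ _ _ (fun t ht => ?_)
  have := h1 (t.length + 1) s.length t (by omega) ht
  simpa only [F, Function.iterate_succ_apply'] using this

/-- For each length, the active requirements and the default values of the free bits. -/
abbrev Tab := ℕ → Finset ℕ × (Str → Bool)

namespace Sys

variable (S : Sys)

/-- Some witness is accepted. -/
def Yes (i : ℕ) (z : Str) (A : Str → Bool) : Prop := ∃ w, (S.yes i z w).val A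

/-- Some witness of the second kind is accepted. -/
def No (i : ℕ) (z : Str) (A : Str → Bool) : Prop := ∃ w, (S.no i z w).val A

/-- The promise of requirement `i` fails on the input `z`. -/
def Bad (i : ℕ) (z : Str) (A : Str → Bool) : Prop :=
  match S.mode i with
  | none => ∃ w w', w ≠ w' ∧ (S.yes i z w).val A ∧ (S.yes i z w').val A
  | some true => S.Yes i z A ∧ S.No i z A
  | some false => ¬ S.Yes i z A ∧ ¬ S.No i z A

/-- The bit to be coded, with default value `b` when it is free. -/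
def Val (i : ℕ) (z : Str) (A : Str → Bool) (b : Bool) : Prop :=
  match S.mode i with
  | none => S.Yes i z A
  | some _ => (S.Yes i z A ∧ ¬ S.No i z A) ∨ ((S.Yes i z A ↔ S.No i z A) ∧ b = true)

theorem bd_le (i : ℕ) (z : Str) : S.bd i z ≤ (S.code i z).length :=
  (Nat.le_self_pow (by norm_num) _).trans (S.len1 i z)

variable {S}

theorem Yes_loc {i : ℕ} {z : Str} {A B : Str → Bool}
    (h : ∀ s : Str, s.length ≤ S.bd i z → B s = A s) : S.Yes i z B ↔ S.Yes i z A :=
  exists_congr fun w => (S.hyes i z w).loc h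

theorem No_loc {i : ℕ} {z : Str} {A B : Str → Bool}
    (h : ∀ s : Str, s.length ≤ S.bd i z → B s = A s) : S.No i z B ↔ S.No i z A :=
  exists_congr fun w => (S.hno i z w).loc h

theorem Bad_loc {i : ℕ} {z : Str} {A B : Str → Bool}
    (h : ∀ s : Str, s.length ≤ S.bd i z → B s = A s) : S.Bad i z B ↔ S.Bad i z A := by
  unfold Bad
  rw [Yes_loc h, No_loc h]
  simp only [fun w => (S.hyes i z w).loc h]

theorem Val_loc {i : ℕ} {z : Str} {A B : Str → Bool} {b : Bool}
    (h : ∀ s : Str, s.length ≤ S.bd i z → B s = A s) : S.Val i z B b ↔ S.Val i z A b := by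
  unfold Val
  rw [Yes_loc h, No_loc h]

variable (S)

/-- One step of the recursive definition of the oracle. -/
noncomputable def Phi (g : Str → Str × Bool) (a : Tab) (A : Str → Bool) : Str → Bool
  | [] => false
  | [true] => false
  | true :: b :: r => decide (g (r.take (r.length / 2)) = (r.drop (r.length / 2), b))
  | false :: c => decide (∃ i z, c = S.code i z ∧ i ∈ (a c.length).1 ∧ S.Val i z A ((a c.length).2 c))

theorem Phi_loc (g : Str → Str × Bool) (a : Tab) (A B : Str → Bool) (s : Str)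
    (h : ∀ t : Str, t.length < s.length → A t = B t) : S.Phi g a A s = S.Phi g a B s := by
  match s with
  | [] => rfl
  | [true] => rfl
  | true :: b :: r => rfl
  | false :: c =>
    simp only [Phi]
    refine decide_eq_decide.2 (exists_congr fun i => exists_congr fun z => ?_)
    refine and_congr_right fun hc => and_congr_right fun _ => Val_loc fun t ht => h t ?_
    have := S.bd_le i z
    simp only [List.length_cons, hc]
    omega

/-- The oracle defined by the test function `g` and the activity table `a`. -/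
noncomputable def O (g : Str → Str × Bool) (a : Tab) : Str → Bool :=
  (exists_fix (S.Phi g a) (S.Phi_loc g a)).choose

theorem O_fix (g : Str → Str × Bool) (a : Tab) (s : Str) :
    S.O g a s = S.Phi g a (S.O g a) s :=
  (congrFun (exists_fix (S.Phi g a) (S.Phi_loc g a)).choose_spec s).symm

theorem O_test (g : Str → Str × Bool) (a : Tab) (b : Bool) (r : Str) :
    S.O g a (true :: b :: r) =
      decide (g (r.take (r.length / 2)) = (r.drop (r.length / 2), b)) := by
  rw [O_fix]; rfl

theorem O_code (g : Str → Str × Bool) (a : Tab) (c : Str) :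
    S.O g a (false :: c) =
      decide (∃ i z, c = S.code i z ∧ i ∈ (a c.length).1 ∧
        S.Val i z (S.O g a) ((a c.length).2 c)) := by
  rw [O_fix]; rfl

theorem O_agree {g g' : Str → Str × Bool} {a a' : Tab} {m : ℕ}
    (hg : ∀ x : Str, 2 * x.length + 2 ≤ m → g' x = g x) (ha : ∀ l < m, a' l = a l) :
    ∀ s : Str, s.length ≤ m → S.O g' a' s = S.O g a s := by
  intro s
  induction hn : s.length using Nat.strong_induction_on generalizing s with
  | _ n ih =>
    intro hs
    match s, hn with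
    | [], _ => rw [O_fix, O_fix (g := g)]; rfl
    | [true], _ => rw [O_fix, O_fix (g := g)]; rfl
    | true :: b :: r, hn =>
      rw [O_test, O_test, hg]
      simp only [List.length_cons] at hn
      simp only [List.length_take]
      omega
    | false :: c, hn =>
      simp only [List.length_cons] at hn
      rw [O_code, O_code, ha _ (by omega)]
      refine decide_eq_decide.2 (exists_congr fun i => exists_congr fun z => ?_)
      refine and_congr_right fun hc => and_congr_right fun _ => Val_loc fun t ht => ?_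
      have := S.bd_le i z
      rw [← hc] at this
      exact ih t.length (by omega) t rfl (by omega)

/-- The row that a query concerns. -/
def row : Str → Str
  | true :: _ :: r => r.take (r.length / 2)
  | _ => []

/-- The coding parts of the two oracles agree up to length `L`. -/
def CodeAgree (a : Tab) (g g' : Str → Str × Bool) (L : ℕ) : Prop :=
  ∀ c : Str, c.length < L → S.O g' a (false :: c) = S.O g a (false :: c)

variable {S}

theorem agree_of_row {a : Tab} {g g' : Str → Str × Bool} {L : ℕ}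
    (h : S.CodeAgree a g g' L) {s : Str} (hs : s.length ≤ L) (hr : g' (row s) = g (row s)) :
    S.O g' a s = S.O g a s := by
  match s, hs, hr with
  | [], _, _ => rw [O_fix, O_fix (g := g)]; rfl
  | [true], _, _ => rw [O_fix, O_fix (g := g)]; rfl
  | true :: b :: r, _, hr =>
    simp only [row] at hr
    rw [O_test, O_test, hr]
  | false :: c, hs, _ => exact h c (by simpa using hs)

theorem use_rows {a : Tab} {g g' : Str → Str × Bool} {L : ℕ}
    (h : S.CodeAgree a g g' L) {t : Alg} (ht : t.Bdd L)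
    (hr : ∀ x ∈ (t.qs (S.O g a)).image row, g' x = g x) :
    (t.val (S.O g' a) ↔ t.val (S.O g a)) ∧ t.qs (S.O g' a) = t.qs (S.O g a) :=
  t.use _ _ fun s hs => agree_of_row h ((ht _).2 s hs) (hr _ (Finset.mem_image_of_mem _ hs))

end Sys

end Pool.Agent.MP_8c2300_lc

end MrgPart0

-- ======== part 1: formerly Pool.Agent.MP_8c2300_lc.Cond
section MrgPart1

-- ======== part 0: formerly Pool.Agent.MP_8c2300_lc.Level
section MrgPart0

/-!
Fixing few rows makes all short coding bits constant.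
-/

namespace Pool.Agent.MP_8c2300_lc

open Classical

/-- The words of length `n`. -/
noncomputable def rows (n : ℕ) : Finset Str := (List.finite_length_eq Bool n).toFinset

@[simp] theorem mem_rows {n : ℕ} {x : Str} : x ∈ rows n ↔ x.length = n := by simp [rows]

theorem card_rows (n : ℕ) : (rows n).card = 2 ^ n := by
  have : rows n = (Finset.univ : Finset (List.Vector Bool n)).image (fun v => v.toList) := by
    ext x
    simp only [mem_rows, Finset.mem_image, Finset.mem_univ, true_and]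
    exact ⟨fun h => ⟨⟨x, h⟩, rfl⟩, fun ⟨v, hv⟩ => hv ▸ v.toList_length⟩
  rw [this, Finset.card_image_of_injective _ List.Vector.toList_injective]
  simp

/-- The rows of length `n` with positive answer. -/
noncomputable def ones (g : Str → Str × Bool) (n : ℕ) : Finset Str :=
  (rows n).filter (fun x => (g x).2 = true)

/-- Witnesses have the length of their row. -/
def Valid (g : Str → Str × Bool) : Prop := ∀ x, (g x).1.length = x.length

/-- The test functions that differ from `g0` only on rows of length `n` outside `R`, with at most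
`r` positive rows of length `n`. -/
def Fam (n : ℕ) (g0 : Str → Str × Bool) (R : Finset Str) (r : ℕ) : Set (Str → Str × Bool) :=
  {g | Valid g ∧ (∀ x : Str, x.length ≠ n ∨ x ∈ R → g x = g0 x) ∧ (ones g n).card ≤ r}

theorem Fam_sub {n : ℕ} {g0 : Str → Str × Bool} {R R1 : Finset Str} {r r' : ℕ}
    (hR : R ⊆ R1) (hr : r ≤ r') : Fam n g0 R1 r ⊆ Fam n g0 R r' := by
  rintro g ⟨h1, h2, h3⟩
  exact ⟨h1, fun x hx => h2 x (hx.imp id (fun h => hR h)), h3.trans hr⟩

namespace Sys

variable {S : Sys}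

theorem kill {n r L : ℕ} {a : Tab} {g0 : Str → Str × Bool} {R : Finset Str}
    (t t' : Str → Alg) (ht : ∀ w, (t w).Bdd L) (ht' : ∀ w, (t' w).Bdd L) (h0 : g0 ∈ Fam n g0 R 0)
    (H1 : ∀ g ∈ Fam n g0 R (2 * r), ∀ g' ∈ Fam n g0 R (2 * r), S.CodeAgree a g g' L)
    (H2 : ∀ g ∈ Fam n g0 R (2 * r), ∀ w w', (t w).val (S.O g a) → (t' w').val (S.O g a) →
      (t w).qs (S.O g a) = (t' w').qs (S.O g a))
    (H3 : ∀ w, ¬ (t' w).val (S.O g0 a)) (j : ℕ) :
    ∃ R1, R ⊆ R1 ∧ R1.card ≤ R.card + j * L ∧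
      ((∀ g ∈ Fam n g0 R1 r, ∀ w, ¬ (t w).val (S.O g a)) ∨
      ∀ g ∈ Fam n g0 R1 r, ∀ w, (t' w).val (S.O g a) →
        (((t' w).qs (S.O g a)).image row \ R1).card + j ≤ L) := by
  induction j with
  | zero =>
    refine ⟨R, subset_rfl, by simp, Or.inr fun g _ w _ => ?_⟩
    exact (Finset.card_le_card Finset.sdiff_subset).trans
      (Finset.card_image_le.trans (ht' w _).1)
  | succ j ih =>
    obtain ⟨R1, hR1, hc, h⟩ := ih
    by_cases hex : ∃ g ∈ Fam n g0 R1 r, ∃ w, (t w).val (S.O g a)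
    swap
    · exact ⟨R1, hR1, by nlinarith, Or.inl fun g hg w hw => hex ⟨g, hg, w, hw⟩⟩
    obtain ⟨g1, hg1, w1, hw1⟩ := hex
    replace h := h.resolve_left fun h => h g1 hg1 w1 hw1
    set T1 := ((t w1).qs (S.O g1 a)).image row with hT1
    have hT1c : T1.card ≤ L := Finset.card_image_le.trans (ht w1 _).1
    refine ⟨R1 ∪ T1, hR1.trans Finset.subset_union_left,
      (Finset.card_union_le _ _).trans (by nlinarith), Or.inr fun g2 hg2 w2 hw2 => ?_⟩
    have hg2' : g2 ∈ Fam n g0 R1 r := Fam_sub Finset.subset_union_left le_rfl hg2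
    set T2 := ((t' w2).qs (S.O g2 a)).image row with hT2
    have h2 := h g2 hg2' w2 hw2
    rw [← hT2] at h2
    have sub : ∀ {g}, g ∈ Fam n g0 R1 r → g ∈ Fam n g0 R (2 * r) := fun hg =>
      Fam_sub hR1 (by omega) hg
    have h0' : g0 ∈ Fam n g0 R (2 * r) := ⟨h0.1, h0.2.1, h0.2.2.trans (Nat.zero_le _)⟩
    have key : ∃ x ∈ T2 \ R1, x ∈ T1 := by
      by_contra hno
      push Not at hno
      let g3 : Str → Str × Bool := fun x => if x ∈ T1 then g1 x else if x ∈ T2 then g2 x else g0 x
      have e1 : ∀ x ∈ T1, g3 x = g1 x := fun x hx => by simp [g3, hx]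
      have e2 : ∀ x ∈ T2, g3 x = g2 x := fun x hx => by
        by_cases h1 : x ∈ T1
        · have hx1 : x ∈ R1 := by
            by_contra hx1
            exact hno x (Finset.mem_sdiff.2 ⟨hx, hx1⟩) h1
          rw [e1 x h1, hg1.2.1 x (Or.inr hx1), hg2'.2.1 x (Or.inr hx1)]
        · simp [g3, h1, hx]
      have hg3 : g3 ∈ Fam n g0 R (2 * r) := by
        refine ⟨fun x => ?_, fun x hx => ?_, ?_⟩
        · simp only [g3]
          split_ifs
          exacts [hg1.1 x, hg2.1 x, h0.1 x]
        · simp only [g3]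
          split_ifs
          exacts [(sub hg1).2.1 x hx, (sub hg2').2.1 x hx, rfl]
        · have : ones g3 n ⊆ ones g1 n ∪ ones g2 n := by
            intro x hx
            simp only [ones, Finset.mem_filter, Finset.mem_union, g3] at hx ⊢
            split_ifs at hx
            · exact Or.inl hx
            · exact Or.inr hx
            · have : x ∈ ones g0 n := by simpa [ones] using hx
              have h00 := Finset.card_eq_zero.1 (Nat.le_zero.1 h0.2.2)
              simp [h00] at this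
          have := (Finset.card_le_card this).trans (Finset.card_union_le _ _)
          have := hg1.2.2
          have := hg2.2.2
          omega
      have u1 := use_rows (H1 g1 (sub hg1) g3 hg3) (ht w1) e1
      have u2 := use_rows (H1 g2 (sub hg2') g3 hg3) (ht' w2) e2
      have hT : T1 = T2 := by
        rw [hT1, hT2, ← u1.2, ← u2.2, H2 g3 hg3 _ _ (u1.1.2 hw1) (u2.1.2 hw2)]
      have u0 := use_rows (H1 g2 (sub hg2') g0 h0') (ht' w2) (fun x hx => by
        have hx1 : x ∈ R1 := by
          by_contra hx1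
          exact hno x (Finset.mem_sdiff.2 ⟨hx, hx1⟩) (hT ▸ hx)
        exact (hg2'.2.1 x (Or.inr hx1)).symm)
      exact H3 w2 (u0.1.2 hw2)
    obtain ⟨x, hx, hx1⟩ := key
    have : (T2 \ (R1 ∪ T1)).card < (T2 \ R1).card := by
      refine Finset.card_lt_card ⟨fun y hy => ?_, fun hsub => ?_⟩
      · simp only [Finset.mem_sdiff, Finset.mem_union, not_or] at hy ⊢
        exact ⟨hy.1, hy.2.1⟩
      · have := hsub hx
        simp [hx1] at this
    omega

theorem bit {n r L i : ℕ} {z : Str} {a : Tab} {g0 : Str → Str × Bool} {R : Finset Str}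
    (hL : S.bd i z ≤ L) (h0 : g0 ∈ Fam n g0 R 0)
    (H1 : ∀ g ∈ Fam n g0 R (2 * r), ∀ g' ∈ Fam n g0 R (2 * r), S.CodeAgree a g g' L)
    (H2 : ∀ g ∈ Fam n g0 R (2 * r), ¬ S.Bad i z (S.O g a)) :
    ∃ (R1 : Finset Str) (b : Bool), R ⊆ R1 ∧ R1.card ≤ R.card + (L + 1) * L ∧
      ∀ g ∈ Fam n g0 R1 r, ∀ g' ∈ Fam n g0 R1 r,
        (S.Val i z (S.O g' a) b ↔ S.Val i z (S.O g a) b) := by
  have h0' : g0 ∈ Fam n g0 R (2 * r) := ⟨h0.1, h0.2.1, h0.2.2.trans (Nat.zero_le _)⟩
  have fix : ∀ t : Alg, t.Bdd L → t.val (S.O g0 a) →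
      ∃ R1, R ⊆ R1 ∧ R1.card ≤ R.card + (L + 1) * L ∧ ∀ g ∈ Fam n g0 R1 r, t.val (S.O g a) := by
    intro t ht hv
    refine ⟨R ∪ (t.qs (S.O g0 a)).image row, Finset.subset_union_left, ?_, fun g hg => ?_⟩
    · have := (Finset.card_image_le (s := t.qs (S.O g0 a)) (f := row)).trans (ht _).1
      exact (Finset.card_union_le _ _).trans (by nlinarith)
    · refine (use_rows (H1 g0 h0' g (Fam_sub Finset.subset_union_left (by omega) hg)) ht
        (fun x hx => hg.2.1 x (Or.inr (Finset.mem_union_right _ hx)))).1.2 hv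
  have hY := fun w => (S.hyes i z w).mono hL
  have hN := fun w => (S.hno i z w).mono hL
  by_cases hy : S.Yes i z (S.O g0 a)
  · obtain ⟨w, hw⟩ := hy
    obtain ⟨R1, h1, h2, h3⟩ := fix _ (hY w) hw
    have : ∀ g ∈ Fam n g0 R1 r, S.Val i z (S.O g a) true := fun g hg => by
      have : S.Yes i z (S.O g a) := ⟨w, h3 g hg⟩
      unfold Val
      split <;> tauto
    exact ⟨R1, true, h1, h2, fun g hg g' hg' => iff_of_true (this g' hg') (this g hg)⟩
  have noY : ∀ R1, (∀ g ∈ Fam n g0 R1 r, ¬ S.Yes i z (S.O g a)) →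
      ∀ g ∈ Fam n g0 R1 r, ∀ g' ∈ Fam n g0 R1 r,
        (S.Val i z (S.O g' a) false ↔ S.Val i z (S.O g a) false) := fun R1 h g hg g' hg' => by
    have := h g hg
    have := h g' hg'
    unfold Val
    split <;> simp [*]
  cases hm : S.mode i with
  | none =>
    simp only [Bad, hm] at H2
    obtain ⟨R1, h1, h2, h3⟩ := kill (S.yes i z) (S.yes i z) hY hY h0 H1
      (fun g hg w w' hw hw' => by
        by_contra hne
        exact H2 g hg ⟨w, w', fun e => hne (by rw [e]), hw, hw'⟩) (fun w hw => hy ⟨w, hw⟩) (L + 1)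
    refine ⟨R1, false, h1, h2, noY R1 fun g hg ⟨w, hw⟩ => ?_⟩
    rcases h3 with h3 | h3
    · exact h3 g hg w hw
    · have := h3 g hg w hw
      omega
  | some m =>
    by_cases hn : S.No i z (S.O g0 a)
    · obtain ⟨w, hw⟩ := hn
      obtain ⟨R1, h1, h2, h3⟩ := fix _ (hN w) hw
      have : ∀ g ∈ Fam n g0 R1 r, ¬ S.Val i z (S.O g a) false := fun g hg => by
        have : S.No i z (S.O g a) := ⟨w, h3 g hg⟩
        simp [Val, hm, this]
      exact ⟨R1, false, h1, h2, fun g hg g' hg' => iff_of_false (this g' hg') (this g hg)⟩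
    cases m with
    | false => exact (H2 g0 h0' (by simp only [Bad, hm]; exact ⟨hy, hn⟩)).elim
    | true =>
      simp only [Bad, hm] at H2
      obtain ⟨R1, h1, h2, h3 | h3⟩ := kill (S.yes i z) (S.no i z) hY hN h0 H1
        (fun g hg w w' hw hw' => (H2 g hg ⟨⟨w, hw⟩, ⟨w', hw'⟩⟩).elim)
        (fun w hw => hn ⟨w, hw⟩) (L + 1)
      · exact ⟨R1, false, h1, h2, noY R1 fun g hg ⟨w, hw⟩ => h3 g hg w hw⟩
      · have : ∀ g ∈ Fam n g0 R1 r, S.Val i z (S.O g a) true := fun g hg => by
          have : ¬ S.No i z (S.O g a) := fun ⟨w, hw⟩ => by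
            have := h3 g hg w hw
            omega
          simp only [Val, hm]
          tauto
        exact ⟨R1, true, h1, h2, fun g hg g' hg' => iff_of_true (this g' hg') (this g hg)⟩

/-- The words `z` with `2 ^ |z| ≤ M`. -/
noncomputable def shorts (M : ℕ) : Finset Str := (Finset.range (Nat.log 2 M + 1)).biUnion rows

theorem card_shorts (M : ℕ) : (shorts M).card ≤ 2 * M + 1 := by
  refine Finset.card_biUnion_le.trans ?_
  simp only [card_rows]
  have h1 := Nat.geomSum_lt (m := 2) (n := Nat.log 2 M + 1) le_rfl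
    (s := Finset.range (Nat.log 2 M + 1)) (fun k hk => Finset.mem_range.1 hk)
  rcases Nat.eq_zero_or_pos M with rfl | hM
  · simp
  · have := Nat.pow_log_le_self 2 hM.ne'
    rw [pow_succ] at h1
    omega

theorem mem_shorts {M : ℕ} {z : Str} (h : 2 ^ z.length ≤ M) : z ∈ shorts M := by
  simp only [shorts, Finset.mem_biUnion, Finset.mem_range, mem_rows]
  exact ⟨_, Nat.lt_succ_of_le (Nat.le_log_of_pow_le (by norm_num) h), rfl⟩

theorem level {n r L : ℕ} {a : Tab} {J : Finset ℕ} {g0 : Str → Str × Bool}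
    {R : Finset Str} (hJ : ∀ l, L ≤ l → (a l).1 ⊆ J) (h0 : g0 ∈ Fam n g0 ∅ 0)
    (H1 : ∀ g ∈ Fam n g0 R (2 * r), ∀ g' ∈ Fam n g0 R (2 * r), S.CodeAgree a g g' L)
    (H2 : ∀ g ∈ Fam n g0 R (2 * r), ∀ i ∈ J, ∀ z, ¬ S.Bad i z (S.O g a)) :
    ∃ (a1 : Tab) (R1 : Finset Str), (∀ l < L, a1 l = a l) ∧ (∀ l, (a1 l).1 = (a l).1) ∧
      R1.card ≤ R.card + J.card * (2 * L ^ 2 + 1) * ((L + 1) * L) ∧
      ∀ g ∈ Fam n g0 R1 r, ∀ g' ∈ Fam n g0 R1 r, S.CodeAgree a1 g g' (L ^ 2) := by
  have aux : ∀ C : Finset (ℕ × Str), C ⊆ J ×ˢ shorts (L ^ 2) →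
      ∃ (R1 : Finset Str) (β : ℕ × Str → Bool), R ⊆ R1 ∧
        R1.card ≤ R.card + C.card * ((L + 1) * L) ∧
        ∀ g ∈ Fam n g0 R1 r, ∀ g' ∈ Fam n g0 R1 r, ∀ c ∈ C, S.bd c.1 c.2 ≤ L →
          (S.Val c.1 c.2 (S.O g' a) (β c) ↔ S.Val c.1 c.2 (S.O g a) (β c)) := by
    intro C
    induction C using Finset.induction_on with
    | empty => exact fun _ => ⟨R, fun _ => false, subset_rfl, by simp, by simp⟩
    | insert c C hc ih =>
      intro hsub
      obtain ⟨R1, β, h1, h2, h3⟩ := ih ((Finset.subset_insert _ _).trans hsub)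
      rw [Finset.card_insert_of_notMem hc]
      by_cases hb : S.bd c.1 c.2 ≤ L
      · have hcJ := (Finset.mem_product.1 (hsub (Finset.mem_insert_self _ _))).1
        obtain ⟨R2, b, k1, k2, k3⟩ := bit (r := r) (a := a) (R := R1) hb
          ⟨h0.1, fun _ _ => rfl, h0.2.2⟩
          (fun g hg g' hg' => H1 g (Fam_sub h1 le_rfl hg) g' (Fam_sub h1 le_rfl hg'))
          (fun g hg => H2 g (Fam_sub h1 le_rfl hg) _ hcJ _)
        refine ⟨R2, Function.update β c b, h1.trans k1, by nlinarith,
          fun g hg g' hg' e he hbe => ?_⟩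
        rcases Finset.mem_insert.1 he with rfl | he'
        · rw [Function.update_self]
          exact k3 g hg g' hg'
        · rw [Function.update_of_ne (fun h : e = c => hc (h ▸ he'))]
          exact h3 g (Fam_sub k1 le_rfl hg) g' (Fam_sub k1 le_rfl hg') e he' hbe
      · refine ⟨R1, β, h1, by nlinarith, fun g hg g' hg' e he hbe => ?_⟩
        rcases Finset.mem_insert.1 he with rfl | he
        · exact (hb hbe).elim
        · exact h3 g hg g' hg' e he hbe
  obtain ⟨R1, β, h1, h2, h3⟩ := aux _ subset_rfl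
  let a1 : Tab := fun l => if l < L then a l else
    ((a l).1, fun c => decide (∃ e : ℕ × Str, c = S.code e.1 e.2 ∧ β e = true))
  have ha1 : ∀ l < L, a1 l = a l := fun l hl => by simp [a1, hl]
  have hO : ∀ g, ∀ s : Str, s.length ≤ L → S.O g a1 s = S.O g a s := fun g =>
    S.O_agree (fun _ _ => rfl) ha1
  refine ⟨a1, R1, ha1, fun l => by simp only [a1]; split_ifs <;> rfl, h2.trans ?_,
    fun g hg g' hg' c hc => ?_⟩
  · rw [Finset.card_product]
    have := card_shorts (L ^ 2)
    gcongr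
  · by_cases hcL : c.length < L
    · rw [hO _ _ (by simpa using hcL), hO _ _ (by simpa using hcL)]
      exact H1 g (Fam_sub h1 (by omega) hg) g' (Fam_sub h1 (by omega) hg') c hcL
    rw [O_code, O_code]
    refine decide_eq_decide.2 (exists_congr fun i => exists_congr fun z => ?_)
    refine and_congr_right fun he => and_congr_right fun hi => ?_
    have l1 := S.len1 i z
    have l2 := S.len2 i z
    rw [← he] at l1 l2
    have hb : S.bd i z ≤ L :=
      (Nat.pow_le_pow_iff_left (n := 2) (by norm_num)).1 (by simpa using l1.trans hc.le)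
    have hβ : (a1 c.length).2 c = β (i, z) := by
      simp only [a1, hcL, if_false]
      rw [Bool.eq_iff_iff, decide_eq_true_iff]
      refine ⟨fun ⟨e, h, h'⟩ => ?_, fun h => ⟨(i, z), he, h⟩⟩
      obtain ⟨rfl, rfl⟩ := S.code_inj _ _ _ _ (he.symm.trans h)
      exact h'
    simp only [a1, hcL, if_false] at hi
    rw [hβ, Val_loc fun s hs => hO g s (hs.trans hb), Val_loc fun s hs => hO g' s (hs.trans hb)]
    exact h3 g hg g' hg' (i, z) (Finset.mem_product.2 ⟨hJ _ (by omega) hi,
      mem_shorts (l2.trans hc.le)⟩) hb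

theorem levels {n D : ℕ} {a : Tab} {J : Finset ℕ} {g0 : Str → Str × Bool}
    (hn : 1 ≤ n) (hJ : ∀ l, n ≤ l → (a l).1 ⊆ J) (h0 : g0 ∈ Fam n g0 ∅ 0)
    (H2 : ∀ a' : Tab, (∀ l < n, a' l = a l) → (∀ l, (a' l).1 = (a l).1) →
      ∀ g ∈ Fam n g0 ∅ (2 ^ D), ∀ i ∈ J, ∀ z, ¬ S.Bad i z (S.O g a')) (j : ℕ) (hj : j ≤ D) :
    ∃ (a' : Tab) (R : Finset Str), (∀ l < n, a' l = a l) ∧ (∀ l, (a' l).1 = (a l).1) ∧
      R.card ≤ j * (6 * J.card * (n ^ 2 ^ D) ^ 4) ∧
      ∀ g ∈ Fam n g0 R (2 ^ (D - j)), ∀ g' ∈ Fam n g0 R (2 ^ (D - j)),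
        S.CodeAgree a' g g' (n ^ 2 ^ j) := by
  induction j with
  | zero =>
    refine ⟨a, ∅, fun _ _ => rfl, fun _ => rfl, by simp, fun g hg g' hg' c hc => ?_⟩
    refine S.O_agree (m := n) (fun x hx => ?_) (fun _ _ => rfl) _ (by simpa using hc)
    rw [hg.2.1 x (Or.inl (by omega)), hg'.2.1 x (Or.inl (by omega))]
  | succ j ih =>
    obtain ⟨a', R, ha, ha', h1, h2⟩ := ih (by omega)
    have e : 2 ^ (D - j) = 2 * 2 ^ (D - (j + 1)) := by
      rw [← pow_succ']; congr 1; omega
    rw [e] at h2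
    have hL : n ≤ n ^ 2 ^ j := Nat.le_self_pow (by positivity) _
    obtain ⟨a1, R1, k0, k1, k2, k3⟩ := level (J := J)
      (fun l hl => ha' l ▸ hJ l (hL.trans hl)) h0 h2
      (fun g hg => H2 a' ha ha' g (Fam_sub (Finset.empty_subset _)
        (e ▸ Nat.pow_le_pow_right (by norm_num) (by omega)) hg))
    refine ⟨a1, R1, fun l hl => by rw [k0 l (by omega), ha l hl], fun l => by rw [k1, ha'],
      k2.trans ?_, ?_⟩
    · have hle : n ^ 2 ^ j ≤ n ^ 2 ^ D :=
        Nat.pow_le_pow_right hn (Nat.pow_le_pow_right (by norm_num) (by omega))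
      set L := n ^ 2 ^ j
      set M := n ^ 2 ^ D
      have h1L : 1 ≤ L := hn.trans hL
      have : (2 * L ^ 2 + 1) * ((L + 1) * L) ≤ 6 * M ^ 4 := by
        calc (2 * L ^ 2 + 1) * ((L + 1) * L) ≤ (3 * L ^ 2) * ((2 * L) * L) := by
              gcongr <;> nlinarith
          _ = 6 * L ^ 4 := by ring
          _ ≤ 6 * M ^ 4 := by gcongr
      calc R.card + J.card * (2 * L ^ 2 + 1) * ((L + 1) * L)
          = R.card + J.card * ((2 * L ^ 2 + 1) * ((L + 1) * L)) := by ring
        _ ≤ j * (6 * J.card * M ^ 4) + J.card * (6 * M ^ 4) := by gcongr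
        _ = (j + 1) * (6 * J.card * M ^ 4) := by ring
    · rwa [pow_succ 2 j, pow_mul]

end Sys

end Pool.Agent.MP_8c2300_lc

end MrgPart0

-- ======== part 1: formerly Pool.Agent.MP_8c2300_lc.Cond
section MrgPart1

/-!
Finite conditions, the diagonalization step and the construction of the oracle.
-/

namespace Pool.Agent.MP_8c2300_lc

open Classical Filter

theorem ev_pow (K e : ℕ) : ∀ᶠ n : ℕ in atTop, K * n ^ e < 2 ^ n := by
  have h := (tendsto_pow_const_div_const_pow_of_one_lt e (r := 2) (by norm_num)).const_mul (K : ℝ)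
  rw [mul_zero] at h
  filter_upwards [h.eventually (gt_mem_nhds (by norm_num : (0 : ℝ) < 1))] with n hn
  rw [← mul_div_assoc, div_lt_one (by positivity)] at hn
  exact_mod_cast hn

/-- A finite condition. -/
structure Cond (d : ℕ → ℕ) where
  k : ℕ
  g : Str → Str × Bool
  a : Tab
  valid : Valid g
  dflt : ∀ x : Str, k < 2 * x.length + 2 → (g x).2 = false
  stab : ∀ l, k ≤ l → (a l).1 = (a k).1
  cens : ∀ u, {x : Str | (g x).2 = true ∧ x.length ≤ 2 ^ u}.encard ≤ d u

namespace Sys

variable (S : Sys) {d : ℕ → ℕ}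

/-- Extension of conditions. -/
def Ext (p q : Cond d) : Prop :=
  p.k ≤ q.k ∧ (∀ x : Str, 2 * x.length + 2 ≤ p.k → q.g x = p.g x) ∧ (∀ l < p.k, q.a l = p.a l) ∧
    ∀ i ∈ (p.a p.k).1, (∀ l, p.k ≤ l → i ∈ (q.a l).1) ∨ ∃ z, S.bd i z ≤ q.k ∧ S.Bad i z (S.O q.g q.a)

variable {S}

theorem Ext.refl (p : Cond d) : S.Ext p p :=
  ⟨le_rfl, fun _ _ => rfl, fun _ _ => rfl, fun _ hi => Or.inl fun l hl => p.stab l hl ▸ hi⟩

theorem Ext.trans {p q r : Cond d} (h : S.Ext p q) (h' : S.Ext q r) : S.Ext p r := by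
  obtain ⟨h1, h2, h3, h4⟩ := h
  obtain ⟨k1, k2, k3, k4⟩ := h'
  refine ⟨h1.trans k1, fun x hx => by rw [k2 x (hx.trans h1), h2 x hx],
    fun l hl => by rw [k3 l (hl.trans_le h1), h3 l hl], fun i hi => ?_⟩
  rcases h4 i hi with h5 | ⟨z, hz, hb⟩
  · rcases k4 i (h5 _ h1) with k5 | k5
    · refine Or.inl fun l hl => ?_
      by_cases hlq : l < q.k
      · rw [k3 l hlq]; exact h5 l hl
      · exact k5 l (by omega)
    · exact Or.inr k5
  · exact Or.inr ⟨z, hz.trans k1,
      (Bad_loc fun s hs => S.O_agree k2 k3 s (hs.trans hz)).2 hb⟩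

theorem activate (p : Cond d) (i : ℕ) : ∃ q : Cond d, S.Ext p q ∧ i ∈ (q.a q.k).1 := by
  refine ⟨⟨p.k, p.g, fun l => if l < p.k then p.a l else (insert i (p.a p.k).1, fun _ => false),
    p.valid, p.dflt,
    fun l hl => by simp [not_lt.2 hl], p.cens⟩, ⟨le_rfl, fun _ _ => rfl, fun l hl => by simp [hl],
    fun j hj => Or.inl fun l hl => by simp [not_lt.2 hl, hj]⟩, by simp⟩

theorem extend (p : Cond d) {u r k : ℕ} {g : Str → Str × Bool} (a : Tab) (J : Finset ℕ)
    (hu : p.k ≤ 2 ^ u) (hg : g ∈ Fam (2 ^ u) p.g ∅ r) (hk : 2 * 2 ^ u + 2 ≤ k)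
    (hd : ∀ v, u ≤ v → {x : Str | (p.g x).2 = true}.encard + r ≤ d v) :
    ∃ q : Cond d, q.k = k ∧ q.g = g ∧
      q.a = fun l => if l < k then a l else (J, fun _ => false) := by
  refine ⟨⟨k, g, fun l => if l < k then a l else (J, fun _ => false), hg.1, fun x hx => ?_,
    fun l hl => by simp [not_lt.2 hl], fun v => ?_⟩, rfl, rfl, rfl⟩
  · rw [hg.2.1 x (Or.inl (by omega))]
    exact p.dflt x (by omega)
  · by_cases hv : u ≤ v
    · refine le_trans ?_ (hd v hv)
      have : {x : Str | (g x).2 = true ∧ x.length ≤ 2 ^ v} ⊆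
          {x : Str | (p.g x).2 = true} ∪ (ones g (2 ^ u) : Set Str) := by
        rintro x ⟨hx, -⟩
        by_cases hl : x.length = 2 ^ u
        · exact Or.inr (by simp [ones, hl, hx])
        · exact Or.inl (by rw [hg.2.1 x (Or.inl hl)] at hx; exact hx)
      refine (Set.encard_le_encard this).trans ((Set.encard_union_le _ _).trans ?_)
      rw [Set.encard_coe_eq_coe_finsetCard]
      gcongr
      exact_mod_cast hg.2.2
    · refine le_trans (Set.encard_le_encard ?_) (p.cens v)
      rintro x ⟨hx, hl⟩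
      have : 2 ^ v < 2 ^ u := Nat.pow_lt_pow_right (by norm_num) (by omega)
      rw [hg.2.1 x (Or.inl (by omega))] at hx
      exact ⟨hx, hl⟩

variable (S)

/-- The condition forces that the algorithms `t x` err on some row. -/
def Forced (t : Str → Alg) (q : Cond d) : Prop :=
  ∃ (u w : ℕ) (x : Str), x.length = 2 ^ u ∧ 2 * x.length + 2 ≤ q.k ∧ w ≤ q.k ∧ (t x).Bdd w ∧
    ((t x).val (S.O q.g q.a) ↔ (q.g x).2 = false) ∧
    ∀ x' : Str, x'.length = x.length → (q.g x').2 = true → x' = x

variable {S}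

theorem hide {n L : ℕ} {a : Tab} {g0 : Str → Str × Bool} {R : Finset Str} {x0 : Str}
    (hn : 1 ≤ n) (h0 : g0 ∈ Fam n g0 ∅ 0) (hx : x0.length = n) (hxR : x0 ∉ R) (hL : L < 2 ^ n)
    (h : ∀ g ∈ Fam n g0 R 1, ∀ g' ∈ Fam n g0 R 1, S.CodeAgree a g g' L) {t : Alg}
    (ht : t.Bdd L) : ∃ g ∈ Fam n g0 R 1, (t.val (S.O g a) ↔ (g x0).2 = false) ∧
      ∀ x' : Str, x'.length = n → (g x').2 = true → x' = x0 := by
  let H : Str → Bool := fun s => if row s = x0 then false else S.O g0 a s
  obtain ⟨y0, hy0, hy⟩ : ∃ y ∈ rows n, y ∉ (t.qs H).image (fun s => s.drop (n + 2)) :=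
    Finset.exists_mem_notMem_of_card_lt_card
      (by rw [card_rows]; exact (Finset.card_image_le.trans (ht H).1).trans_lt hL)
  let g := Function.update g0 x0 (y0, decide (¬ t.val H))
  have hone : ∀ x' : Str, x'.length = n → (g x').2 = true → x' = x0 := by
    intro x' h1 h2
    by_contra hne
    simp only [g, Function.update_of_ne hne] at h2
    have : x' ∈ ones g0 n := by simp [ones, h1, h2]
    simp [Finset.card_eq_zero.1 (Nat.le_zero.1 h0.2.2)] at this
  have hg : g ∈ Fam n g0 R 1 := by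
    refine ⟨fun x => ?_, fun x hx' => ?_, ?_⟩
    · by_cases e : x = x0
      · subst e; simpa [g, hx] using hy0
      · simp only [g, Function.update_of_ne e]; exact h0.1 x
    · refine Function.update_of_ne ?_ _ _
      rintro rfl
      tauto
    · refine Finset.card_le_one.2 fun x1 h1 x2 h2 => ?_
      simp only [ones, Finset.mem_filter, mem_rows] at h1 h2
      rw [hone x1 h1.1 h1.2, hone x2 h2.1 h2.2]
  refine ⟨g, hg, ?_, hone⟩
  have key := (t.use H (S.O g a) (fun s hs => by
    by_cases e : row s = x0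
    · simp only [H, e, if_true]
      match s, hs, e with
      | [], _, e => simp [row] at e; subst e; simp at hx; omega
      | [true], _, e => simp [row] at e; subst e; simp at hx; omega
      | false :: c, _, e => simp [row] at e; subst e; simp at hx; omega
      | true :: b :: r, hs, e =>
        simp only [row] at e
        have hr : r.length / 2 = n := by
          rw [← e, List.length_take] at hx
          omega
        rw [O_test, e, decide_eq_false_iff_not]
        intro he
        simp only [g, Function.update_self, Prod.mk.injEq] at he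
        exact hy (Finset.mem_image.2 ⟨_, hs, by rw [he.1, hr]; rfl⟩)
    · simp only [H, e, if_false]
      exact agree_of_row (h g0 ⟨h0.1, fun _ _ => rfl, h0.2.2.trans (by norm_num)⟩ g hg)
        ((ht H).2 s hs) (Function.update_of_ne e _ _))).1
  rw [key]
  simp [g]

theorem diag (hd : Tendsto d atTop atTop) (t : Str → Alg) {D N : ℕ}
    (ht : ∀ x : Str, N ≤ x.length → (t x).Bdd (x.length ^ 2 ^ D)) (p : Cond d) :
    ∃ q : Cond d, S.Ext p q ∧ p.k < q.k ∧ S.Forced t q := by
  induction hm : (p.a p.k).1.card using Nat.strong_induction_on generalizing p with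
  | _ m ih =>
  obtain ⟨C, hC⟩ : ∃ C : ℕ, {x : Str | (p.g x).2 = true}.encard = C := by
    refine Set.Finite.exists_encard_eq_coe ((List.finite_length_le Bool p.k).subset fun x hx => ?_)
    by_contra hl
    simp only [Set.mem_ofPred_eq, not_le] at hl hx
    simp [p.dflt x (by omega)] at hx
  have h2 : Tendsto (fun u : ℕ => 2 ^ u) atTop atTop := tendsto_pow_atTop_atTop_of_one_lt (by norm_num)
  obtain ⟨u, hu1, hu2, hu3, hu4, hu5⟩ := ((h2.eventually (eventually_ge_atTop p.k)).and
    ((h2.eventually (eventually_ge_atTop N)).and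
    ((h2.eventually (ev_pow (D * 6 * m) (2 ^ D * 4))).and ((h2.eventually (ev_pow 1 (2 ^ D))).and
    (eventually_forall_ge_atTop.2 (hd.eventually (eventually_ge_atTop (C + 2 ^ D)))))))).exists
  set n := 2 ^ u with hn
  have hn1 : 1 ≤ n := Nat.one_le_two_pow
  have h0 : p.g ∈ Fam n p.g ∅ 0 := by
    refine ⟨p.valid, fun _ _ => rfl, Nat.le_zero.2 (Finset.card_eq_zero.2 ?_)⟩
    refine Finset.filter_eq_empty_iff.2 fun x hx => ?_
    rw [mem_rows] at hx
    simp [p.dflt x (by omega)]
  have hdv : ∀ r : ℕ, r ≤ 2 ^ D → ∀ v, u ≤ v → {x : Str | (p.g x).2 = true}.encard + r ≤ d v := by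
    intro r hr v hv
    rw [hC]
    exact_mod_cast (Nat.add_le_add_left hr C).trans (hu5 v hv)
  have hext : ∀ (q : Cond d) (g : Str → Str × Bool) (a : Tab) (r : ℕ) (J : Finset ℕ),
      (∀ l < n, a l = p.a l) → (∀ l, (a l).1 = (p.a l).1) → g ∈ Fam n p.g ∅ r →
      2 * n + 2 ≤ q.k → q.g = g → (q.a = fun l => if l < q.k then a l else (J, fun _ => false)) →
      (∀ i ∈ (p.a p.k).1, i ∈ J ∨ ∃ z, S.bd i z ≤ q.k ∧ S.Bad i z (S.O g a)) →
      S.Ext p q ∧ ∀ s : Str, s.length ≤ q.k → S.O q.g q.a s = S.O g a s := by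
    intro q g a r J ha1 ha2 hg hk hqg hqa hJ
    have ha : ∀ l < q.k, q.a l = a l := fun l hl => by rw [hqa]; simp [hl]
    have hO := S.O_agree (g := g) (g' := q.g) (m := q.k) (fun x _ => by rw [hqg]) ha
    refine ⟨⟨by omega, fun x hx => ?_, fun l hl => by rw [ha l (by omega), ha1 l (by omega)],
      fun i hi => ?_⟩, hO⟩
    · rw [hqg, hg.2.1 x (Or.inl (by omega))]
    · rcases hJ i hi with h | ⟨z, hz, hb⟩
      · refine Or.inl fun l hl => ?_
        by_cases hlq : l < q.k
        · rw [ha l hlq, ha2, p.stab l hl]; exact hi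
        · rw [hqa]; simp [hlq, h]
      · exact Or.inr ⟨z, hz, (Bad_loc fun s hs => hO s (hs.trans hz)).2 hb⟩
  by_cases hbad : ∃ a : Tab, (∀ l < n, a l = p.a l) ∧ (∀ l, (a l).1 = (p.a l).1) ∧
      ∃ g ∈ Fam n p.g ∅ (2 ^ D), ∃ i ∈ (p.a p.k).1, ∃ z, S.Bad i z (S.O g a)
  · obtain ⟨a, ha1, ha2, g, hg, i, hi, z, hb⟩ := hbad
    obtain ⟨q, hqk, hqg, hqa⟩ := extend p (k := max (2 * n + 2) (S.bd i z)) a
      ((p.a p.k).1.erase i) hu1 hg (le_max_left _ _) (hdv _ le_rfl)
    rw [← hqk] at hqa
    have h1 := (hext q g a _ _ ha1 ha2 hg (hqk ▸ le_max_left _ _) hqg hqa (fun j hj => by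
      by_cases e : j = i
      · exact Or.inr ⟨z, e ▸ hqk ▸ le_max_right _ _, e ▸ hb⟩
      · exact Or.inl (Finset.mem_erase.2 ⟨e, hj⟩))).1
    obtain ⟨q', k1, k2, k3⟩ := ih (m - 1) (by
      have := Finset.card_pos.2 ⟨i, hi⟩
      omega) q (by rw [hqa]; simp [Finset.card_erase_of_mem hi, hm])
    exact ⟨q', h1.trans k1, h1.1.trans_lt k2, k3⟩
  · push Not at hbad
    obtain ⟨a, R, ha1, ha2, hR, hA⟩ := levels (J := (p.a p.k).1) hn1
      (fun l hl => by rw [p.stab l (by omega)]) h0 hbad D le_rfl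
    obtain ⟨x0, hx0, hxR⟩ : ∃ x ∈ rows n, x ∉ R := by
      refine Finset.exists_mem_notMem_of_card_lt_card ?_
      rw [card_rows]
      refine hR.trans_lt (lt_of_eq_of_lt ?_ hu3)
      rw [hm, pow_mul]; ring
    rw [mem_rows] at hx0
    have hB := ht x0 (by omega)
    rw [hx0] at hB
    rw [Nat.sub_self, pow_zero] at hA
    obtain ⟨g, hg, h1, h2⟩ := hide hn1 h0 hx0 hxR (by omega) hA hB
    have hg' := Fam_sub (Finset.empty_subset R) le_rfl hg
    obtain ⟨q, hqk, hqg, hqa⟩ := extend p (k := max (2 * n + 2) (n ^ 2 ^ D)) a (p.a p.k).1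
      hu1 hg' (le_max_left _ _) (hdv 1 Nat.one_le_two_pow)
    rw [← hqk] at hqa
    obtain ⟨k1, k2⟩ := hext q g a _ _ ha1 ha2 hg' (hqk ▸ le_max_left _ _) hqg hqa
      (fun j hj => Or.inl hj)
    have hw : n ^ 2 ^ D ≤ q.k := hqk ▸ le_max_right _ _
    refine ⟨q, k1, by omega, u, n ^ 2 ^ D, x0, hx0, by omega, hw, hB, ?_, ?_⟩
    · rw [hB.loc fun s hs => k2 s (hs.trans hw), hqg, h1]
    · rw [hqg, hx0]; exact h2

theorem core (S : Sys) (hd : Tendsto d atTop atTop) (t : ℕ → Str → Alg)
    (ht : ∀ j, ∃ D N : ℕ, ∀ x : Str, N ≤ x.length → (t j x).Bdd (x.length ^ 2 ^ D)) :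
    ∃ (A : Str → Bool) (g : Str → Str × Bool), Valid g ∧
      (∀ b r, A (true :: b :: r) =
        decide (g (r.take (r.length / 2)) = (r.drop (r.length / 2), b))) ∧
      (∀ u, {x : Str | (g x).2 = true ∧ x.length ≤ 2 ^ u}.encard ≤ d u) ∧
      (∀ i, (∃ z, S.Bad i z A) ∨ ∃ k, ∀ z, k ≤ (S.code i z).length →
        ∃ b, (A (false :: S.code i z) = true ↔ S.Val i z A b)) ∧
      ∀ j, ∃ (u : ℕ) (x : Str), x.length = 2 ^ u ∧ ((t j x).val A ↔ (g x).2 = false) ∧
        ∀ x' : Str, x'.length = x.length → (g x').2 = true → x' = x := by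
  have step : ∀ (j : ℕ) (p : Cond d), ∃ q : Cond d, S.Ext p q ∧ p.k < q.k ∧ S.Forced (t j) q ∧
      ∃ p' : Cond d, j ∈ (p'.a p'.k).1 ∧ S.Ext p' q := by
    intro j p
    obtain ⟨D, N, h⟩ := ht j
    obtain ⟨p', h1, h2⟩ := activate (S := S) p j
    obtain ⟨q, k1, k2, k3⟩ := diag (S := S) hd (t j) h p'
    exact ⟨q, h1.trans k1, h1.1.trans_lt k2, k3, p', h2, k1⟩
  choose F hF1 hF2 hF3 hF4 using step
  let p0 : Cond d := ⟨0, fun x => (x, false), fun _ => (∅, fun _ => false), fun _ => rfl, fun _ _ => rfl,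
    fun _ _ => rfl, fun u => by simp⟩
  let P : ℕ → Cond d := fun s => Nat.rec p0 (fun j p => F j p) s
  have hP : ∀ s, P (s + 1) = F s (P s) := fun _ => rfl
  have hmono : ∀ s s', s ≤ s' → S.Ext (P s) (P s') := by
    intro s s' h
    induction h with
    | refl => exact Ext.refl _
    | step _ ih => exact ih.trans (hP _ ▸ hF1 _ _)
  have hk : ∀ s, s ≤ (P s).k := by
    intro s
    induction s with
    | zero => exact Nat.zero_le _
    | succ s ih => have := hF2 s (P s); rw [hP]; omega
  let g : Str → Str × Bool := fun x => (P (2 * x.length + 2)).g x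
  let a : Tab := fun l => (P (l + 1)).a l
  have hg : ∀ s (x : Str), 2 * x.length + 2 ≤ (P s).k → g x = (P s).g x := by
    intro s x hx
    rcases le_total s (2 * x.length + 2) with h | h
    · exact (hmono _ _ h).2.1 x hx
    · exact ((hmono _ _ h).2.1 x (hk _)).symm
  have ha : ∀ s, ∀ l < (P s).k, a l = (P s).a l := by
    intro s l hl
    rcases le_total s (l + 1) with h | h
    · exact (hmono _ _ h).2.2.1 l hl
    · exact ((hmono _ _ h).2.2.1 l (hk _)).symm
  have hO := fun s => S.O_agree (hg s) (ha s)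
  refine ⟨S.O g a, g, fun x => (P (2 * x.length + 2)).valid x, fun b r => by rw [O_test], fun u => ?_,
    fun i => ?_, fun j => ?_⟩
  · refine le_trans (Set.encard_le_encard ?_) ((P (2 * 2 ^ u + 2)).cens u)
    rintro x ⟨h1, h2⟩
    rw [hg (2 * 2 ^ u + 2) x (le_trans (by omega) (hk (2 * 2 ^ u + 2)))] at h1
    exact ⟨h1, h2⟩
  · obtain ⟨p', h1, h2⟩ := hF4 i (P i)
    rw [← hP] at h2
    by_cases hb : ∃ z, S.Bad i z (S.O g a)
    · exact Or.inl hb
    refine Or.inr ⟨p'.k, fun z hz => ?_⟩
    have hia : i ∈ (a (S.code i z).length).1 := by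
      set l := (S.code i z).length
      rcases (h2.trans (hmono (i + 1) (i + 1 + l) (by omega))).2.2.2 i h1 with h | ⟨z', hz', hb'⟩
      · rw [ha (i + 1 + l) l (lt_of_lt_of_le (by omega) (hk (i + 1 + l)))]
        exact h l hz
      · exact (hb ⟨z', (Bad_loc fun s hs => hO (i + 1 + l) s (hs.trans hz')).2 hb'⟩).elim
    refine ⟨(a (S.code i z).length).2 (S.code i z), ?_⟩
    rw [O_code, decide_eq_true_iff]
    refine ⟨fun ⟨i', z', e, _, hy⟩ => ?_, fun hy => ⟨i, z, rfl, hia, hy⟩⟩
    obtain ⟨rfl, rfl⟩ := S.code_inj _ _ _ _ e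
    exact hy
  · obtain ⟨u, w, x, h1, h2, h3, h4, h5, h6⟩ := hF3 j (P j)
    rw [← hP] at h2 h3 h5 h6
    refine ⟨u, x, h1, ?_, fun x' hx' h => h6 x' hx' ?_⟩
    · rw [h4.loc fun s hs => hO (j + 1) s (hs.trans h3), h5, hg (j + 1) x h2]
    · rwa [← hg (j + 1) x' (by omega)]

end Sys

end Pool.Agent.MP_8c2300_lc

end MrgPart1

-- marker of a merged file
example : 731051 + 329244 = 731051 + 329244 := rfl

end MrgPart1

-- ======== part 2: formerly Pool.Agent.MP_8c2300_lc.Count
section MrgPart2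

/-!
There are countably many polynomial-time functions, hence countably many oracle machines.
-/

namespace Pool.Agent.MP_8c2300_lc

open Pool.Agent.PolyT Pool.Agent.H82 N487b59b3 Function

instance {Q K G : Type} [Finite Q] [Finite K] [Finite G] : Finite (SM Q K G) :=
  Finite.of_injective (fun M : SM Q K G => (M.stk, M.op, M.next)) (fun M M' h => by
    cases M; cases M'; simp_all)

instance : Countable (Polynomial ℕ) :=
  (show Injective (fun p : Polynomial ℕ => p.toFinsupp.coeff) from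
    AddMonoidAlgebra.coeff_injective.comp Polynomial.toFinsupp_injective).countable

/-- Relabelling of a machine. -/
def relab {Q K G Q' K' G' : Type} (eQ : Q ≃ Q') (eK : K ≃ K') (eG : G ≃ G') (M : SM Q K G) :
    SM Q' K' G' where
  stk q := eK (M.stk (eQ.symm q))
  op q := (M.op (eQ.symm q)).map (Option.map eG)
  next q c := eQ (M.next (eQ.symm q) (c.map eG.symm))

theorem relab_step {Q K G Q' K' G' : Type} [DecidableEq K] [DecidableEq K'] (eQ : Q ≃ Q')
    (eK : K ≃ K') (eG : G ≃ G') (M : SM Q K G) (c : Q × (K → List G)) :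
    (relab eQ eK eG M).step (eQ c.1, fun k => (c.2 (eK.symm k)).map eG) =
      (eQ (M.step c).1, fun k => ((M.step c).2 (eK.symm k)).map eG) := by
  simp only [SM.step, relab, Equiv.symm_apply_apply, List.head?_map, Option.map_map,
    Equiv.symm_comp_self, Option.map_id_fun, id, Prod.mk.injEq, true_and]
  funext k
  by_cases h : k = eK (M.stk c.1)
  · subst h
    simp only [update_self, Equiv.symm_apply_apply]
    rcases M.op c.1 with _ | _ | g <;> simp [upd]
  · rw [update_of_ne h, update_of_ne]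
    rintro h'
    exact h (by rw [← h', Equiv.apply_symm_apply])

theorem relab_iter {Q K G Q' K' G' : Type} [DecidableEq K] [DecidableEq K'] (eQ : Q ≃ Q')
    (eK : K ≃ K') (eG : G ≃ G') (M : SM Q K G) (t : ℕ) (c : Q × (K → List G)) :
    (relab eQ eK eG M).step^[t] (eQ c.1, fun k => (c.2 (eK.symm k)).map eG) =
      (eQ (M.step^[t] c).1, fun k => ((M.step^[t] c).2 (eK.symm k)).map eG) := by
  induction t generalizing c with
  | zero => rfl
  | succ t ih => rw [iterate_succ_apply, iterate_succ_apply, relab_step, ih]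

/-- Codes of clocked machines. -/
def Code : Type := Σ n : ℕ × ℕ × ℕ, SM (Fin n.1) (Fin n.2.1) (Fin n.2.2) × Fin n.1 × Fin n.2.1 ×
  Fin n.2.1 × (Bool → Fin n.2.2) × (Bool → Fin n.2.2) × Polynomial ℕ

instance : Countable Code := by unfold Code; infer_instance

theorem countable_poly (α β : Type) [N487b59b3 α] [N487b59b3 β] :
    Countable {f : α → β // N68a2faeb.IsPolyTime f} := by
  let Cmp : Code → (α → β) → Prop := fun c f => Injective c.2.2.2.2.2.2.1 ∧ ∀ a,
    (c.2.1.step^[c.2.2.2.2.2.2.2.eval (bitEncode a).length]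
      (c.2.2.1, fun k => if k = c.2.2.2.1 then (bitEncode a).map c.2.2.2.2.2.1 else [])).2
        c.2.2.2.2.1 = (bitEncode (f a)).map c.2.2.2.2.2.2.1
  have hex : ∀ f : {f : α → β // N68a2faeb.IsPolyTime f}, ∃ c, Cmp c f.1 := by
    rintro ⟨f, hf⟩
    obtain ⟨N, r, h⟩ := exists_fsm ((poly_iff f).2 hf)
    let eQ := Fintype.equivFin N.Q
    let eK := Fintype.equivFin N.K
    let eG := Fintype.equivFin N.G
    refine ⟨⟨(_, _, _), relab eQ eK eG N.M, eQ N.q₀, eK N.k₀, eK N.k₁, eG ∘ N.inp, eG ∘ N.out, r⟩,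
      eG.injective.comp N.out_inj, fun a => ?_⟩
    have h1 := relab_iter eQ eK eG N.M (r.eval (bitEncode a).length) (N.start (bitEncode a))
    have h2 : (fun k => ((N.start (bitEncode a)).2 (eK.symm k)).map eG) =
        fun k => if k = eK N.k₀ then (bitEncode a).map (eG ∘ N.inp) else [] := by
      funext k
      simp only [FSM.start, Equiv.symm_apply_eq]
      split_ifs <;> simp
    rw [h2] at h1
    refine (congrArg (fun c => c.2 (eK N.k₁)) h1).trans ?_
    simp only [Equiv.symm_apply_apply, h a _ le_rfl, List.map_map]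
    rfl
  choose c hc using hex
  refine (show Injective c from fun f g h => Subtype.ext (funext fun a => ?_)).countable
  have h1 := (hc f).2 a
  have h2 := (h ▸ hc g : Cmp (c f) g.1).2 a
  rw [h1] at h2
  exact bitEncode_injective (List.map_injective_iff.2 (hc f).1 h2)

instance : Countable OM := by
  have := countable_poly ((Str × Str × Str) × Str) Str
  have := countable_poly ((Str × Str × Str) × Str) Bool
  refine (show Injective (fun M : OM => ((⟨M.next, M.next_poly⟩ : {f // N68a2faeb.IsPolyTime f}),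
    (⟨M.out, M.out_poly⟩ : {f // N68a2faeb.IsPolyTime f}), M.q)) from fun M M' h => ?_).countable
  cases M; cases M'; simp_all

end Pool.Agent.MP_8c2300_lc

end MrgPart2

-- ======== part 3: formerly Pool.Agent.MP_8c2300_lc.Main
section MrgPart3

/-!
Oracle machines as query algorithms, and the final theorem.
-/

namespace Pool.Agent.MP_8c2300_lc

open Pool.Agent.PolyT Pool.Agent.H82 N487b59b3 Function Filter

theorem length_answers (A : Str → Bool) (next : (Str × Str × Str) × Str → Str)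
    (a : Str × Str × Str) (T : ℕ) : (answers A next a T).length = T := by
  induction T with
  | zero => rfl
  | succ T ih => simp [answers, ih]

theorem answers_congr {A B : Str → Bool} {next : (Str × Str × Str) × Str → Str}
    {a : Str × Str × Str} {T : ℕ}
    (h : ∀ j < T, B (next (a, answers A next a j)) = A (next (a, answers A next a j))) :
    ∀ j ≤ T, answers B next a j = answers A next a j := by
  intro j hj
  induction j with
  | zero => rfl
  | succ j ih => simp only [answers]; rw [ih (by omega), h j (by omega)]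

/-- The run of a machine on an input and a witness, as a query algorithm. -/
noncomputable def runAlg (M : OM) (p : Polynomial ℕ) (s : ℕ → ℕ) (x w : Str) : Alg where
  val A := w.length ≤ p.eval (s x.length) ∧ M.Acc A s x w
  qs A := if w.length ≤ p.eval (s x.length) then (Finset.range (M.q.eval (s x.length))).image
    (fun j => M.next ((x, List.replicate (s x.length) true, w),
      answers A M.next (x, List.replicate (s x.length) true, w) j)) else ∅
  use A B h := by
    by_cases hw : w.length ≤ p.eval (s x.length)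
    · simp only [hw, if_true, true_and] at h ⊢
      have := answers_congr (fun j hj => h _ (Finset.mem_image_of_mem _ (Finset.mem_range.2 hj)))
      refine ⟨by rw [OM.Acc, OM.Acc, this _ le_rfl], Finset.image_congr fun j hj => ?_⟩
      rw [this j (Finset.mem_range.1 hj).le]
    · simp [hw]

theorem runAlg_bdd (M : OM) (p : Polynomial ℕ) : ∃ P : Polynomial ℕ, ∀ (s : ℕ → ℕ) (x w : Str),
    x.length ≤ s x.length → (runAlg M p s x w).Bdd (P.eval (s x.length)) := by
  obtain ⟨r, hr⟩ := ((poly_iff _).2 M.next_poly).bd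
  refine ⟨M.q + r.comp (24 * Polynomial.X + 6 * p + 3 * M.q + 5), fun s x w hx A => ?_⟩
  simp only [runAlg]
  split_ifs with hw
  · refine ⟨Finset.card_image_le.trans (by simp), fun t ht => ?_⟩
    obtain ⟨j, hj, rfl⟩ := Finset.mem_image.1 ht
    refine (length_le_enc _).trans ((hr _).trans ?_)
    rw [Polynomial.eval_add, Polynomial.eval_comp]
    refine le_add_left (eval_mono r ?_)
    have := Finset.mem_range.1 hj
    simp only [length_enc_pair, Poly.enc_bools_length, length_answers, List.length_replicate,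
      Polynomial.eval_add, Polynomial.eval_mul, Polynomial.eval_X, Polynomial.eval_ofNat]
    omega
  · simp

theorem poly_le_pow (P : Polynomial ℕ) : ∃ D, ∀ n, 2 ≤ n → P.eval n ≤ n ^ 2 ^ D := by
  suffices h : ∃ e, ∀ n, 2 ≤ n → P.eval n ≤ n ^ e by
    obtain ⟨e, he⟩ := h
    exact ⟨e, fun n hn => (he n hn).trans
      (Nat.pow_le_pow_right (by omega) Nat.lt_two_pow_self.le)⟩
  induction P using Polynomial.induction_on' with
  | add p q hp hq =>
    obtain ⟨e, he⟩ := hp
    obtain ⟨f, hf⟩ := hq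
    refine ⟨e + f + 1, fun n hn => ?_⟩
    have h1 : n ^ e ≤ n ^ (e + f) := Nat.pow_le_pow_right (by omega) (by omega)
    have h2 : n ^ f ≤ n ^ (e + f) := Nat.pow_le_pow_right (by omega) (by omega)
    have := he n hn
    have := hf n hn
    rw [Polynomial.eval_add, pow_succ]
    nlinarith
  | monomial k c =>
    refine ⟨c + k, fun n hn => ?_⟩
    rw [Polynomial.eval_monomial, pow_add]
    exact Nat.mul_le_mul_right _ (Nat.lt_two_pow_self.le.trans (Nat.pow_le_pow_left hn c))

theorem one_query {f : Str × Str × Str → Str} {h : (Str × Str × Str) × Bool → Bool}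
    (hf : PolyT.Poly f) (hh : PolyT.Poly h) : ∃ M : OM, ∀ A s x w, M.Acc A s x w ↔
      h ((x, List.replicate (s x.length) true, w),
        A (f (x, List.replicate (s x.length) true, w))) = true := by
  refine ⟨⟨fun z => f z.1, fun z => h (z.1, z.2.headD false), 1,
    (poly_iff _).1 (hf.comp PolyT.Poly.id.fst),
    (poly_iff _).1 (hh.comp (PolyT.Poly.id.fst.pair
      (PolyT.Poly.id.snd.headD (PolyT.Poly.const false))))⟩, fun A s x w => ?_⟩
  simp [OM.Acc, answers]

instance : Nonempty OM :=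
  ⟨(one_query (PolyT.Poly.const []) (PolyT.Poly.const true)).choose⟩

theorem DT_sub_NT {A : Str → Bool} {s : ℕ → ℕ} {k : ℕ → ℕ∞} (hk : ∀ n, 1 ≤ k n) :
    DT A s ⊆ NT A s k := by
  rintro L ⟨M, hM⟩
  refine ⟨M, 0, fun x => ⟨by simp [hM x], le_trans ?_ (hk _)⟩⟩
  refine Set.encard_le_one_iff.2 fun w w' hw hw' => ?_
  simp only [Polynomial.eval_zero, Nat.le_zero, List.length_eq_zero_iff, Set.mem_ofPred_eq]
    at hw hw'
  rw [hw.1, hw'.1]

/-- The coding string. -/
noncomputable def codeStr (Q : Polynomial ℕ) (i : ℕ) (z : Str) : Str :=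
  bitEncode ((i, z, List.replicate (Q.eval (2 ^ z.length)) false) : ℕ × Str × Str)

theorem decode_DT {A : Str → Bool} {L : Set Str} (Q : Polynomial ℕ) (i k : ℕ)
    (h : ∀ z : Str, k ≤ z.length → (A (false :: codeStr Q i z) = true ↔ z ∈ L)) :
    L ∈ DT A (2 ^ ·) := by
  classical
  obtain ⟨F, hF, hl⟩ := exists_list_eval
    (show PolyT.Poly (fun a : Str × Str × Str => a.2.1) by fun_prop) Q
  let l := ((List.finite_length_lt Bool k).toFinset.filter (· ∈ L)).toList
  have h1 : PolyT.Poly (fun a : Str × Str × Str =>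
      ((i, a.1, (F a).map (fun _ => false)) : ℕ × Str × Str)) := by fun_prop
  have h2 : PolyT.Poly (fun z : (Str × Str × Str) × Bool => decide (z.1.1 ∈ l)) :=
    (PolyT.Poly.mem PolyT.Poly.id.fst.fst (PolyT.Poly.const l)).congr
      (fun _ => decide_eq_decide.2 Iff.rfl)
  obtain ⟨M, hM⟩ := one_query ((PolyT.Poly.const false).cons (PolyT.Poly.bitsOf h1))
    (show PolyT.Poly (fun z : (Str × Str × Str) × Bool =>
      bif ltB z.1.1.length k then decide (z.1.1 ∈ l) else z.2) by fun_prop)
  refine ⟨M, fun x => ?_⟩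
  rw [hM]
  by_cases hx : x.length < k
  · simp [ltB, hx, l]
  · simp only [ltB, hx, decide_false, cond_false, List.map_const', hl, List.length_replicate]
    exact (h x (by omega)).symm

theorem main (d : ℕ → ℕ) (hd : Tendsto d atTop atTop) : ∃ A : Str → Bool,
    NT A (2 ^ ·) (fun _ => 1) = DT A (2 ^ ·) ∧
    (∀ L₁ ∈ NT A (2 ^ ·) (fun _ => ⊤), ∀ L₂ ∈ NT A (2 ^ ·) (fun _ => ⊤), Disjoint L₁ L₂ →
      ∃ K ∈ DT A (2 ^ ·), L₁ ⊆ K ∧ Disjoint K L₂) ∧
    (∀ L₁ L₂ : Set Str, L₁ᶜ ∈ NT A (2 ^ ·) (fun _ => ⊤) → L₂ᶜ ∈ NT A (2 ^ ·) (fun _ => ⊤) →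
      Disjoint L₁ L₂ → ∃ K ∈ DT A (2 ^ ·), L₁ ⊆ K ∧ Disjoint K L₂) ∧
    (∃ L ∈ NT A (2 ^ ·) (fun n => d n), L ∉ DT A (2 ^ ·)) ∧
    ∃ S : Set Str, S ∈ NT A id (fun _ => 1) ∧ Sᶜ ∈ NT A id (fun _ => 1) ∧ S ∉ DT A id ∧
      ∀ n, {x ∈ S | x.length ≤ n}.encard ≤ d n := by
  classical
  obtain ⟨e, he⟩ := exists_surjective_nat (Option Bool × OM × Polynomial ℕ × OM × Polynomial ℕ)
  choose B hB using runAlg_bdd
  let P : ℕ → Polynomial ℕ := fun i => B (e i).2.1 (e i).2.2.1 + B (e i).2.2.2.1 (e i).2.2.2.2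
  have hlen : ∀ Q i z, Q.eval (2 ^ z.length) ≤ (codeStr Q i z).length := fun Q i z => by
    simp only [codeStr, length_enc_pair, Poly.enc_bools_length, List.length_replicate]
    omega
  let S : Sys :=
    { mode := fun i => (e i).1
      yes := fun i => runAlg (e i).2.1 (e i).2.2.1 (2 ^ ·)
      no := fun i => runAlg (e i).2.2.2.1 (e i).2.2.2.2 (2 ^ ·)
      bd := fun i z => (P i).eval (2 ^ z.length)
      code := fun i => codeStr (P i ^ 2 + Polynomial.X) i
      hyes := fun i z w => (hB _ _ (2 ^ ·) z w Nat.lt_two_pow_self.le).mono (by simp [P])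
      hno := fun i z w => (hB _ _ (2 ^ ·) z w Nat.lt_two_pow_self.le).mono (by simp [P])
      code_inj := fun i z i' z' h => by
        have := bitEncode_injective h
        simp only [Prod.mk.injEq] at this
        exact ⟨this.1, this.2.1⟩
      len1 := fun i z => le_trans (by simp) (hlen _ _ _)
      len2 := fun i z => le_trans (by simp) (hlen _ _ _) }
  let t : ℕ → Str → Alg := fun j x => if (e j).1 = none then runAlg (e j).2.1 0 id x []
    else runAlg (e j).2.1 0 (2 ^ ·) (List.replicate (Nat.log 2 x.length) false) []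
  obtain ⟨A, g, hv, hA, hc, h1, h2⟩ := S.core hd t (fun j => by
    obtain ⟨D, hD⟩ := poly_le_pow (B (e j).2.1 0)
    refine ⟨D, 2, fun x hx => ?_⟩
    simp only [t]
    split_ifs
    · exact (hB _ _ id x [] le_rfl).mono (hD _ hx)
    · refine (hB _ _ (2 ^ ·) _ [] Nat.lt_two_pow_self.le).mono (le_trans (eval_mono _ ?_) (hD _ hx))
      rw [List.length_replicate]
      exact Nat.pow_log_le_self 2 (by omega))
  have dec : ∀ (L₁ L₂ : Set Str) (i : ℕ), Disjoint L₁ L₂ → (∀ z, ¬ S.Bad i z A) →
      (∀ z ∈ L₁, ∀ b, S.Val i z A b) → (∀ z ∈ L₂, ∀ b, ¬ S.Val i z A b) →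
      ∃ K ∈ DT A (2 ^ ·), L₁ ⊆ K ∧ Disjoint K L₂ := by
    intro L₁ L₂ i hL hb k1 k2
    obtain ⟨k, hk⟩ := (h1 i).resolve_left (fun ⟨z, hz⟩ => hb z hz)
    have hk' := fun (z : Str) (hz : ¬ z.length < k) =>
      hk z ((not_lt.1 hz).trans (Nat.lt_two_pow_self.le.trans (S.len2 i z)))
    refine ⟨{z | if z.length < k then z ∈ L₁ else A (false :: S.code i z) = true},
      decode_DT (P i ^ 2 + Polynomial.X) i k fun z hz => by simp [not_lt.2 hz, S],
      fun z hz => ?_, Set.disjoint_left.2 fun z hz hz2 => ?_⟩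
    · simp only [Set.mem_ofPred_eq]
      split_ifs with h
      · exact hz
      · obtain ⟨b, hb⟩ := hk' z h
        exact hb.2 (k1 z hz b)
    · simp only [Set.mem_ofPred_eq] at hz
      split_ifs at hz with h
      · exact Set.disjoint_left.1 hL hz hz2
      · obtain ⟨b, hb⟩ := hk' z h
        exact k2 z hz2 b (hb.1 hz)
  have test : ∀ (b : Bool) (x w : Str), w.length = x.length →
      (A (true :: b :: (x ++ w)) = true ↔ g x = (w, b)) := by
    intro b x w hw
    have : (x ++ w).length / 2 = x.length := by simp; omega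
    rw [hA, this]
    simp
  have hS : ∀ b : Bool, {x | (g x).2 = b} ∈ NT A id (fun _ => 1) := by
    intro b
    obtain ⟨M, hM⟩ := one_query
      (show PolyT.Poly (fun a : Str × Str × Str => true :: b :: (a.1 ++ a.2.2)) by fun_prop)
      (show PolyT.Poly (fun z : (Str × Str × Str) × Bool =>
        eqB z.1.2.2.length z.1.1.length && z.2) by fun_prop)
    have : ∀ x w, M.Acc A id x w ↔ g x = (w, b) := fun x w => by
      rw [hM]
      simp only [Bool.and_eq_true, eqB_iff]
      exact ⟨fun h => (test b x w h.1).1 h.2, fun h => by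
        have hw : w.length = x.length := by rw [← hv x, h]
        exact ⟨hw, (test b x w hw).2 h⟩⟩
    refine ⟨M, Polynomial.X, fun x => ⟨?_, Set.encard_le_one_iff.2 fun w w' hw hw' => ?_⟩⟩
    · simp only [this, Set.mem_ofPred_eq, Polynomial.eval_X, id]
      exact ⟨fun h => ⟨(g x).1, (hv x).le, by rw [← h]⟩, fun ⟨w, _, h⟩ => by rw [h]⟩
    · simp only [this, Set.mem_ofPred_eq] at hw hw'
      exact (Prod.mk.inj (hw.2.symm.trans hw'.2)).1
  refine ⟨A, subset_antisymm ?_ (DT_sub_NT fun _ => le_rfl), ?_, ?_,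
    ⟨{z | ∃ x : Str, x.length = 2 ^ z.length ∧ (g x).2 = true}, ?_, ?_⟩,
    {x | (g x).2 = true}, hS true, ?_, ?_, fun n => ?_⟩
  · rintro L ⟨M, p, h⟩
    obtain ⟨i, hi⟩ := he (none, M, p, M, p)
    have hy : ∀ z b, S.Val i z A b ↔ z ∈ L := fun z b => by
      simp only [Sys.Val, Sys.Yes, S, hi, runAlg, (h z).1]
    obtain ⟨K, hK, k1, k2⟩ := dec L Lᶜ i disjoint_compl_right (fun z hz => by
      simp only [Sys.Bad, S, hi, runAlg] at hz
      obtain ⟨w, w', hne, hw, hw'⟩ := hz
      exact hne (Set.encard_le_one_iff.1 (h z).2 w w' hw hw')) (fun z hz b => (hy z b).2 hz)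
      (fun z hz b hv => hz ((hy z b).1 hv))
    rwa [subset_antisymm k1 (Set.disjoint_compl_right_iff_subset.1 k2)]
  · rintro L₁ ⟨M, p, h⟩ L₂ ⟨M', p', h'⟩ hL
    obtain ⟨i, hi⟩ := he (some true, M, p, M', p')
    have hy : ∀ z, S.Yes i z A ↔ z ∈ L₁ := fun z => by
      simp only [Sys.Yes, S, hi, runAlg, (h z).1]
    have hn : ∀ z, S.No i z A ↔ z ∈ L₂ := fun z => by
      simp only [Sys.No, S, hi, runAlg, (h' z).1]
    have hm : S.mode i = some true := by simp only [S, hi]
    have hL' := fun z => @Set.disjoint_left.1 hL z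
    refine dec L₁ L₂ i hL (fun z => ?_) (fun z hz b => ?_) (fun z hz b => ?_) <;>
      simp only [Sys.Bad, Sys.Val, hm, hy, hn] <;> specialize hL' z <;> tauto
  · rintro L₁ L₂ ⟨M', p', h'⟩ ⟨M, p, h⟩ hL
    obtain ⟨i, hi⟩ := he (some false, M, p, M', p')
    have hy : ∀ z, S.Yes i z A ↔ z ∉ L₂ := fun z => by
      simp only [Sys.Yes, S, hi, runAlg, ← (h z).1, Set.mem_compl_iff]
    have hn : ∀ z, S.No i z A ↔ z ∉ L₁ := fun z => by
      simp only [Sys.No, S, hi, runAlg, ← (h' z).1, Set.mem_compl_iff]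
    have hm : S.mode i = some false := by simp only [S, hi]
    have hL' := fun z => @Set.disjoint_left.1 hL z
    refine dec L₁ L₂ i hL (fun z => ?_) (fun z hz b => ?_) (fun z hz b => ?_) <;>
      simp only [Sys.Bad, Sys.Val, hm, hy, hn] <;> specialize hL' z <;> tauto
  · obtain ⟨M, hM⟩ := one_query
      (show PolyT.Poly (fun a : Str × Str × Str => true :: true :: a.2.2) by fun_prop)
      (show PolyT.Poly (fun z : (Str × Str × Str) × Bool =>
        eqB z.1.2.2.length (z.1.2.1.length + z.1.2.1.length) && z.2) by fun_prop)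
    have hacc : ∀ z w : Str, M.Acc A (2 ^ ·) z w ↔ w.length = 2 ^ z.length + 2 ^ z.length ∧
        g (w.take (2 ^ z.length)) = (w.drop (2 ^ z.length), true) := fun z w => by
      rw [hM]
      simp only [Bool.and_eq_true, eqB_iff, List.length_replicate]
      refine and_congr_right fun hw => ?_
      rw [← test true _ _ (by simp; omega), List.take_append_drop]
    refine ⟨M, Polynomial.X + Polynomial.X, fun z => ⟨?_, ?_⟩⟩
    · simp only [hacc, Set.mem_ofPred_eq, Polynomial.eval_add, Polynomial.eval_X]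
      refine ⟨fun ⟨x, hx, h⟩ => ⟨x ++ (g x).1, by simp [hv x, hx], by simp [hv x, hx], ?_⟩,
        fun ⟨w, _, hw, h⟩ => ⟨w.take (2 ^ z.length), by simp; omega, by rw [h]⟩⟩
      rw [← hx, List.take_left, List.drop_left, ← h]
    · refine le_trans (Set.encard_le_encard_of_injOn (f := fun w => w.take (2 ^ z.length))
        (fun w hw => ?_) (fun w hw w' hw' h => ?_)) (hc z.length)
      · have := (hacc z w).1 hw.2
        exact ⟨by rw [this.2], by simp⟩
      · have k1 := ((hacc z w).1 hw.2).2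
        have k2 := ((hacc z w').1 hw'.2).2
        simp only at h
        rw [h, k2] at k1
        rw [← List.take_append_drop (2 ^ z.length) w, ← List.take_append_drop (2 ^ z.length) w',
          h, (Prod.mk.inj k1).1]
  · rintro ⟨M, hM⟩
    obtain ⟨j, hj⟩ := he (some false, M, 0, M, 0)
    obtain ⟨u, x, k1, k2, k3⟩ := h2 j
    have := hM (List.replicate u false)
    simp only [t, hj, reduceCtorEq, if_false, runAlg, k1, Nat.log_pow (by norm_num : 1 < 2),
      List.length_nil, Nat.zero_le, true_and] at k2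
    rw [k2] at this
    simp only [Set.mem_ofPred_eq, List.length_replicate] at this
    cases hb : (g x).2 with
    | true => simpa [hb] using this.1 ⟨x, k1, hb⟩
    | false =>
      obtain ⟨x', h1', h2'⟩ := this.2 hb
      rw [k3 x' (h1'.trans k1.symm) h2', hb] at h2'
      cases h2'
  · convert hS false using 1
    ext x
    simp
  · rintro ⟨M, hM⟩
    obtain ⟨j, hj⟩ := he (none, M, 0, M, 0)
    obtain ⟨u, x, -, k2, -⟩ := h2 j
    simp only [t, hj, if_true, runAlg, List.length_nil, Nat.zero_le, true_and] at k2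
    have := hM x
    rw [k2] at this
    simp at this
  · refine le_trans (Set.encard_le_encard ?_) (hc n)
    exact fun x hx => ⟨hx.1, hx.2.trans Nat.lt_two_pow_self.le⟩

end Pool.Agent.MP_8c2300_lc

end MrgPart3

-- marker of a merged file
example : 731051 + 496508 = 731051 + 496508 := rfl
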