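import Mathlib
import Pool.Prelude.Def_H_3587d628

/-!
Relativized time classes, through polynomial-time query and output functions.
-/

namespace Pool.Agent.MP_8c2300_lc

/-- Binary words. -/
abbrev Str := List Bool

/-- The answers of the oracle `A` to the first `T` queries; each query is computed by `next` from
the input `a` and the earlier answers. -/
def answers (A : Str → Bool) (next : (Str × Str × Str) × Str → Str) (a : Str × Str × Str) :
    ℕ → Str
  | 0 => []
  | T + 1 => answers A next a T ++ [A (next (a, answers A next a T))]

/-- An oracle machine: polynomial-time functions giving the next query and the verdict, and a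
polynomial giving the number of queries. -/
structure OM where
  next : (Str × Str × Str) × Str → Str
  out : (Str × Str × Str) × Str → Bool
  q : Polynomial ℕ
  next_poly : N68a2faeb.IsPolyTime next
  out_poly : N68a2faeb.IsPolyTime out

/-- With oracle `A`, the machine accepts the input `x` with witness `w`; it also receives the
clock `1 ^ s |x|`, so it runs in time polynomial in `|x| + s |x| + |w|`. -/
def OM.Acc (M : OM) (A : Str → Bool) (s : ℕ → ℕ) (x w : Str) : Prop :=
  M.out ((x, List.replicate (s x.length) true, w),
    answers A M.next (x, List.replicate (s x.length) true, w) (M.q.eval (s x.length))) = true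

/-- Deterministic time polynomial in `n + s n`, with oracle `A`. -/
def DT (A : Str → Bool) (s : ℕ → ℕ) : Set (Set Str) :=
  {L | ∃ M : OM, ∀ x, x ∈ L ↔ M.Acc A s x []}

/-- Nondeterministic time polynomial in `n + s n`, with oracle `A` and at most `k n` accepted
witnesses on each input of length `n`. -/
def NT (A : Str → Bool) (s : ℕ → ℕ) (k : ℕ → ℕ∞) : Set (Set Str) :=
  {L | ∃ (M : OM) (p : Polynomial ℕ), ∀ x,
    (x ∈ L ↔ ∃ w : Str, w.length ≤ p.eval (s x.length) ∧ M.Acc A s x w) ∧
    {w : Str | w.length ≤ p.eval (s x.length) ∧ M.Acc A s x w}.encard ≤ k x.length}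

end Pool.Agent.MP_8c2300_lc
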