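import Pool.Agent.MP_8c2300_lc.Low3

/-!
The exact census threshold below which the absence of sparse sets in `NP - P` no longer forces
`E = NE` in every relativized world.
-/

open Filter Pool.Agent.MP_8c2300_lc

namespace Pool.Agent.MP_8c2300_lc.DensityThresholdOld

/-- For every `d` the following are equivalent: `d` is eventually at least a fixed root of `n`;
relative to every oracle, if all `NP` sets of census at most `d` are in `P` then `NE = E`;
relative to every oracle, if all `NP` sets of census at most `d` are in `P` then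
`UE ∩ coUE ⊆ E`. -/
theorem result (d : ℕ → ℕ) : List.TFAE
    [∃ k : ℕ, ∀ᶠ n in atTop, n ≤ d n ^ k,
     ∀ A : Str → Bool,
      (∀ S ∈ NT A id (fun _ => ⊤), (∀ n, {x ∈ S | x.length ≤ n}.encard ≤ d n) → S ∈ DT A id) →
      NT A (2 ^ ·) (fun _ => ⊤) = DT A (2 ^ ·),
     ∀ A : Str → Bool,
      (∀ S ∈ NT A id (fun _ => ⊤), (∀ n, {x ∈ S | x.length ≤ n}.encard ≤ d n) → S ∈ DT A id) →
      ∀ L ∈ NT A (2 ^ ·) (fun _ => 1), (L)ᶜ ∈ NT A (2 ^ ·) (fun _ => 1) → L ∈ DT A (2 ^ ·)] := by
  tfae_have 1 → 2 := fun ⟨_, hk⟩ A h => high_main d hk A h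
  tfae_have 2 → 3 := fun h A hA L ⟨M, p, hM⟩ _ =>
    h A hA ▸ ⟨M, p, fun x => ⟨(hM x).1, le_top⟩⟩
  tfae_have 3 → 1 := fun h => by
    by_contra hn
    obtain ⟨A, h1, L, h2, h3, h4⟩ := low_main d fun k => by
      have := not_eventually.1 (fun hk => hn ⟨k, hk⟩)
      simpa only [not_le] using this
    exact h4 (h A h1 L h2 h3)
  tfae_finish

end Pool.Agent.MP_8c2300_lc.DensityThresholdOld
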