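import Pool.Agent.MP_8c2300_lc.Cond

/-!
An oracle coding all very sparse nondeterministic sets while a dense test set stays hard.
-/

namespace Pool.Agent.MP_8c2300_lc

open Classical Filter

theorem few_runs (qs : (Str → Bool) → Finset Str) (K : Str → Bool) (Q : ℕ)
    (hQ : ∀ A, (qs A).card ≤ Q) (t : ℕ) (B : Finset Str) :
    ∃ F : Finset (Finset Str), F.card ≤ (Q + 1) ^ t ∧ ∀ P : Finset Str, P.card ≤ t →
      ∃ P' ∈ F, ∀ s ∈ qs (fun s => decide (s ∈ P') || K s), (s ∈ B ∪ P ↔ s ∈ P') := by
  induction t generalizing B with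
  | zero =>
    refine ⟨{B}, by simp, fun P hP => ⟨B, by simp, fun s _ => ?_⟩⟩
    simp [Finset.card_eq_zero.1 (Nat.le_zero.1 hP)]
  | succ t ih =>
    choose F hF1 hF2 using ih
    refine ⟨insert B ((qs (fun s => decide (s ∈ B) || K s)).biUnion fun p => F (insert p B)),
      (Finset.card_insert_le _ _).trans ?_, fun P hP => ?_⟩
    · have := Finset.card_biUnion_le_card_mul (qs (fun s => decide (s ∈ B) || K s))
        (fun p => F (insert p B)) _ (fun p _ => hF1 (insert p B))
      have h1 := Nat.mul_le_mul_right ((Q + 1) ^ t) (hQ (fun s => decide (s ∈ B) || K s))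
      have h2 : 1 ≤ (Q + 1) ^ t := Nat.one_le_pow _ _ (by omega)
      rw [pow_succ]
      nlinarith
    · by_cases h : ∃ p ∈ P, p ∈ qs (fun s => decide (s ∈ B) || K s)
      · obtain ⟨p, hp, hq⟩ := h
        obtain ⟨P', h1, h2⟩ := hF2 (insert p B) (P.erase p)
          (by rw [Finset.card_erase_of_mem hp]; omega)
        refine ⟨P', Finset.mem_insert_of_mem (Finset.mem_biUnion.2 ⟨p, hq, h1⟩), fun s hs => ?_⟩
        rw [← h2 s hs]
        by_cases e : s = p <;> simp [e, hp]
      · push Not at h
        refine ⟨B, Finset.mem_insert_self _ _, fun s hs => ?_⟩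
        simp [show s ∉ P from fun hs' => h s hs' hs]

/-- A system of nondeterministic machines to be coded in the oracle. -/
structure Sy where
  yes : ℕ → Str → Str → Alg
  bd : ℕ → Str → ℕ
  code : ℕ → Str → Str
  hyes : ∀ i z w, (yes i z w).Bdd (bd i z)
  code_inj : ∀ i z i' z', code i z = code i' z' → i = i' ∧ z = z'
  len1 : ∀ i z, bd i z ≤ (code i z).length
  len2 : ∀ i z, z.length ≤ (code i z).length

namespace Sy

variable (S : Sy)

/-- Some witness is accepted. -/
def Yes (i : ℕ) (z : Str) (A : Str → Bool) : Prop := ∃ w, (S.yes i z w).val A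

/-- The census bound `f` fails, with queries of length at most `B`. -/
def Bad (f : ℕ → ℕ) (i : ℕ) (A : Str → Bool) (B : ℕ) : Prop :=
  ∃ (m : ℕ) (X : Finset Str), f m < X.card ∧ ∀ x ∈ X, x.length ≤ m ∧ S.bd i x ≤ B ∧ S.Yes i x A

variable {S}

theorem Yes_loc {i : ℕ} {z : Str} {A B : Str → Bool}
    (h : ∀ s : Str, s.length ≤ S.bd i z → B s = A s) : S.Yes i z B ↔ S.Yes i z A :=
  exists_congr fun w => (S.hyes i z w).loc h

theorem Bad.loc {f : ℕ → ℕ} {i k k' : ℕ} {A B : Str → Bool} (hb : S.Bad f i A k) (hk : k ≤ k')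
    (h : ∀ s : Str, s.length ≤ k → B s = A s) : S.Bad f i B k' := by
  obtain ⟨m, X, h1, h2⟩ := hb
  exact ⟨m, X, h1, fun x hx => ⟨(h2 x hx).1, (h2 x hx).2.1.trans hk,
    (Yes_loc fun s hs => h s (hs.trans (h2 x hx).2.1)).2 (h2 x hx).2.2⟩⟩

variable (S)

/-- One step of the recursive definition of the oracle. -/
noncomputable def Phi (g : Str → Str × Bool) (a : ℕ → Finset ℕ) (A : Str → Bool) : Str → Bool
  | [] => false
  | [true] => false
  | true :: b :: r => decide (g (r.take (Nat.log 2 r.length)) = (r.drop (Nat.log 2 r.length), b))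
  | false :: c => decide (∃ i z, c = S.code i z ∧ i ∈ a c.length ∧ S.Yes i z A)

theorem Phi_loc (g : Str → Str × Bool) (a : ℕ → Finset ℕ) (A B : Str → Bool) (s : Str)
    (h : ∀ t : Str, t.length < s.length → A t = B t) : S.Phi g a A s = S.Phi g a B s := by
  match s with
  | [] => rfl
  | [true] => rfl
  | true :: b :: r => rfl
  | false :: c =>
    simp only [Phi]
    refine decide_eq_decide.2 (exists_congr fun i => exists_congr fun z => ?_)
    refine and_congr_right fun hc => and_congr_right fun _ => Yes_loc fun t ht => h t ?_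
    have := S.len1 i z
    simp only [List.length_cons, hc]
    omega

/-- The oracle defined by the test function `g` and the activity table `a`. -/
noncomputable def O (g : Str → Str × Bool) (a : ℕ → Finset ℕ) : Str → Bool :=
  (exists_fix (S.Phi g a) (S.Phi_loc g a)).choose

theorem O_fix (g : Str → Str × Bool) (a : ℕ → Finset ℕ) (s : Str) :
    S.O g a s = S.Phi g a (S.O g a) s :=
  (congrFun (exists_fix (S.Phi g a) (S.Phi_loc g a)).choose_spec s).symm

theorem O_test (g : Str → Str × Bool) (a : ℕ → Finset ℕ) (b : Bool) (r : Str) :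
    S.O g a (true :: b :: r) =
      decide (g (r.take (Nat.log 2 r.length)) = (r.drop (Nat.log 2 r.length), b)) := by
  rw [O_fix]; rfl

theorem O_code (g : Str → Str × Bool) (a : ℕ → Finset ℕ) (c : Str) :
    S.O g a (false :: c) =
      decide (∃ i z, c = S.code i z ∧ i ∈ a c.length ∧ S.Yes i z (S.O g a)) := by
  rw [O_fix]; rfl

theorem O_agree {g g' : Str → Str × Bool} {a a' : ℕ → Finset ℕ} {m : ℕ}
    (hg : ∀ x : Str, 2 ^ x.length ≤ m → g' x = g x) (ha : ∀ l < m, a' l = a l) :
    ∀ s : Str, s.length ≤ m → S.O g' a' s = S.O g a s := by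
  intro s
  induction hn : s.length using Nat.strong_induction_on generalizing s with
  | _ n ih =>
    intro hs
    match s, hn with
    | [], _ => rw [O_fix, O_fix (g := g)]; rfl
    | [true], _ => rw [O_fix, O_fix (g := g)]; rfl
    | true :: b :: r, hn =>
      rw [O_test, O_test, hg]
      simp only [List.length_cons] at hn
      rw [List.length_take]
      refine (Nat.pow_le_pow_right (by norm_num) (min_le_left _ _)).trans ?_
      rcases Nat.eq_zero_or_pos r.length with h | h
      · simp [h]; omega
      · exact (Nat.pow_log_le_self 2 h.ne').trans (by omega)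
    | false :: c, hn =>
      simp only [List.length_cons] at hn
      rw [O_code, O_code, ha _ (by omega)]
      refine decide_eq_decide.2 (exists_congr fun i => exists_congr fun z => ?_)
      refine and_congr_right fun hc => and_congr_right fun _ => Yes_loc fun t ht => ?_
      have := S.len1 i z
      rw [← hc] at this
      exact ih t.length (by omega) t rfl (by omega)

variable {S}

theorem err {f : ℕ → ℕ} {k u w m : ℕ} {g : Str → Str × Bool} {a : ℕ → Finset ℕ} {J : Finset ℕ}
    (t : Str → Alg) (ht : ∀ z : Str, z.length = u → (t z).Bdd w) (hk : k < 2 ^ u) (hw : w ≤ m)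
    (hJ : ∀ l, k ≤ l → a l ⊆ J) (hnum : (2 ^ u * w + 1) ^ (J.card * f m + 1) ≤ 2 ^ 2 ^ u)
    (hb : ∀ (y : Str) (T : Finset Str), y.length = 2 ^ u → ∀ i ∈ J, ∀ B,
      ¬ S.Bad f i (S.O (fun z => if z.length = u then (y, decide (z ∈ T)) else g z) a) B) :
    ∃ (y : Str) (T : Finset Str) (z : Str), y.length = 2 ^ u ∧ z.length = u ∧
      ((t z).val (S.O (fun z => if z.length = u then (y, decide (z ∈ T)) else g z) a) ↔ z ∉ T) := by
  let qs : (Str → Bool) → Finset Str := fun A => (rows u).biUnion fun z => (t z).qs A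
  let K : Str → Bool := fun s => match s with
    | true :: b :: r => if (r.take (Nat.log 2 r.length)).length = u then false
        else S.O g a (true :: b :: r)
    | false :: c => if c.length < k then S.O g a (false :: c) else false
    | _ => false
  have hQ : ∀ A, (qs A).card ≤ 2 ^ u * w := fun A => by
    rw [← card_rows]
    exact Finset.card_biUnion_le_card_mul _ _ _ fun z hz => (ht z (mem_rows.1 hz) A).1
  obtain ⟨F, hF1, hF2⟩ := few_runs qs K _ hQ (J.card * f m) ∅
  set Q := 2 ^ u * w
  have hpos : 0 < (Q + 1) ^ (J.card * f m) := by positivity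
  rw [pow_succ] at hnum
  obtain ⟨y, hy0, hy⟩ : ∃ y ∈ rows (2 ^ u), y ∉ (F.biUnion fun P =>
      qs (fun s => decide (s ∈ P) || K s)).image (fun s => s.drop (u + 2)) := by
    refine Finset.exists_mem_notMem_of_card_lt_card (Finset.card_image_le.trans_lt ?_)
    have := Finset.card_biUnion_le_card_mul F _ _ fun P _ => hQ (fun s => decide (s ∈ P) || K s)
    have := Nat.mul_le_mul_right Q hF1
    rw [card_rows]
    nlinarith
  rw [mem_rows] at hy0
  by_cases hQ0 : Q = 0
  · have hw0 : w = 0 := by simpa [Q] using hQ0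
    let z0 := List.replicate u false
    have hz0 : z0.length = u := by simp [z0]
    have hq : ∀ A B, (t z0).val B ↔ (t z0).val A := fun A B => ((t z0).use A B fun s hs => by
      have := (ht z0 hz0 A).1
      rw [hw0, Nat.le_zero, Finset.card_eq_zero] at this
      simp [this] at hs).1
    by_cases hv : (t z0).val (fun _ => false)
    · exact ⟨y, ∅, z0, hy0, hz0, by simp [hq (fun _ => false), hv]⟩
    · exact ⟨y, {z0}, z0, hy0, hz0, by simp [hq (fun _ => false), hv]⟩
  obtain ⟨T, hT0, hT⟩ : ∃ T ∈ (rows u).powerset, T ∉ F.image (fun P =>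
      (rows u).filter fun z => (t z).val (fun s => decide (s ∈ P) || K s)) := by
    refine Finset.exists_mem_notMem_of_card_lt_card (Finset.card_image_le.trans_lt ?_)
    rw [Finset.card_powerset, card_rows]
    have : 1 ≤ Q := by omega
    nlinarith
  set g' : Str → Str × Bool := fun z => if z.length = u then (y, decide (z ∈ T)) else g z with hg'
  let X : ℕ → Finset Str := fun i => (List.finite_length_le Bool m).toFinset.filter
    fun x => S.Yes i x (S.O g' a)
  have hX : ∀ i ∈ J, (X i).card ≤ f m := fun i hi => by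
    by_contra hlt
    refine hb y T hy0 i hi ((X i).sup (S.bd i)) ⟨m, X i, by omega, fun x hx =>
      ⟨?_, Finset.le_sup hx, (Finset.mem_filter.1 hx).2⟩⟩
    simpa using (Finset.mem_filter.1 hx).1
  let P : Finset Str := (J.biUnion fun i => (X i).image fun x => false :: S.code i x).filter
    fun s => k < s.length ∧ S.O g' a s = true
  obtain ⟨P', hP', h⟩ := hF2 P ((Finset.card_filter_le _ _).trans
    (Finset.card_biUnion_le_card_mul _ _ _ fun i hi => Finset.card_image_le.trans (hX i hi)))
  have key : ∀ z ∈ rows u, ((t z).val (S.O g' a) ↔ (t z).val (fun s => decide (s ∈ P') || K s)) := by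
    intro z hz
    refine ((t z).use _ _ fun s hs => ?_).1
    have hs' : s ∈ qs (fun s => decide (s ∈ P') || K s) := Finset.mem_biUnion.2 ⟨z, hz, hs⟩
    have hl := ((ht z (mem_rows.1 hz) _).2 s hs).trans hw
    have hsy : s.drop (u + 2) ≠ y := fun e =>
      hy (Finset.mem_image.2 ⟨s, Finset.mem_biUnion.2 ⟨P', hP', hs'⟩, e⟩)
    have h1 := h s hs'
    rw [Finset.empty_union] at h1
    have h1' : decide (s ∈ P') = decide (s ∈ P) := decide_eq_decide.2 h1.symm
    rw [h1']
    clear h1' h1 hs' hs
    match s, hl, hsy with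
    | [], _, _ => rw [O_fix]; simp [P, K, Phi]
    | [true], _, _ => rw [O_fix]; simp [P, K, Phi]
    | true :: b :: r, _, hsy =>
      have hP : true :: b :: r ∉ P := by simp [P]
      simp only [hP, decide_false, Bool.false_or, K, O_test, hg']
      split_ifs with e
      · have : Nat.log 2 r.length = u := by
          have := Nat.log_le_self 2 r.length
          rw [List.length_take] at e
          omega
        rw [decide_eq_false_iff_not, this]
        intro he
        exact hsy (Prod.mk.inj he).1.symm
      · rfl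
    | false :: c, hl, _ =>
      simp only [K]
      split_ifs with e
      · have hP : false :: c ∉ P := by simp [P]; omega
        simp only [hP, decide_false, Bool.false_or]
        refine S.O_agree (m := k) (fun x hx => ?_) (fun _ _ => rfl) _ (by simpa using e)
        rw [hg']
        refine if_neg fun e' => ?_
        rw [e'] at hx
        omega
      · rw [Bool.or_false, Bool.eq_iff_iff, decide_eq_true_iff]
        refine ⟨fun ho => Finset.mem_filter.2 ⟨?_, by simp; omega, ho⟩,
          fun hp => (Finset.mem_filter.1 hp).2.2⟩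
        rw [O_code, decide_eq_true_iff] at ho
        obtain ⟨i, x, rfl, hi, hyes⟩ := ho
        refine Finset.mem_biUnion.2 ⟨i, hJ _ (by omega) hi, Finset.mem_image.2 ⟨x, ?_, rfl⟩⟩
        have := S.len2 i x
        simp only [List.length_cons] at hl
        simp only [X, Finset.mem_filter, Set.Finite.mem_toFinset, Set.mem_ofPred_eq]
        exact ⟨by omega, hyes⟩
  by_contra hcon
  refine hT (Finset.mem_image.2 ⟨P', hP', ?_⟩)
  ext z
  rw [Finset.mem_filter]
  constructor
  · rintro ⟨hz, hv⟩
    by_contra hzT
    exact hcon ⟨y, T, z, hy0, mem_rows.1 hz, iff_of_true ((key z hz).2 hv) hzT⟩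
  · intro hzT
    have hz := Finset.mem_powerset.1 hT0 hzT
    refine ⟨hz, ?_⟩
    by_contra hv
    exact hcon ⟨y, T, z, hy0, mem_rows.1 hz,
      iff_of_false (fun h' => hv ((key z hz).1 h')) (not_not.2 hzT)⟩

end Sy

end Pool.Agent.MP_8c2300_lc
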