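import Pool.Agent.MP_8c2300_lc.Low

/-!
Finite conditions and the limit construction for the oracle coding all very sparse sets.
-/

namespace Pool.Agent.MP_8c2300_lc

open Classical Filter

/-- A finite condition. -/
structure Cnd where
  k : ℕ
  g : Str → Str × Bool
  a : ℕ → Finset ℕ
  valid : ∀ z, (g z).1.length = 2 ^ z.length
  stab : ∀ l, k ≤ l → a l = a k

namespace Sy

variable (S : Sy) (f : ℕ → ℕ)

/-- Extension of conditions. -/
def Ext (p q : Cnd) : Prop :=
  p.k ≤ q.k ∧ (∀ x : Str, 2 ^ x.length ≤ p.k → q.g x = p.g x) ∧ (∀ l < p.k, q.a l = p.a l) ∧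
    ∀ i ∈ p.a p.k, (∀ l, p.k ≤ l → i ∈ q.a l) ∨ S.Bad f i (S.O q.g q.a) q.k

/-- The condition forces that the algorithms `t z` err on some row. -/
def Forced (t : Str → Alg) (q : Cnd) : Prop :=
  ∃ (w : ℕ) (z : Str), 2 ^ z.length ≤ q.k ∧ w ≤ q.k ∧ (t z).Bdd w ∧
    ((t z).val (S.O q.g q.a) ↔ (q.g z).2 = false)

variable {S f}

theorem Ext.refl (p : Cnd) : S.Ext f p p :=
  ⟨le_rfl, fun _ _ => rfl, fun _ _ => rfl, fun _ hi => Or.inl fun l hl => p.stab l hl ▸ hi⟩

theorem Ext.trans {p q r : Cnd} (h : S.Ext f p q) (h' : S.Ext f q r) : S.Ext f p r := by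
  obtain ⟨h1, h2, h3, h4⟩ := h
  obtain ⟨k1, k2, k3, k4⟩ := h'
  refine ⟨h1.trans k1, fun x hx => by rw [k2 x (hx.trans h1), h2 x hx],
    fun l hl => by rw [k3 l (hl.trans_le h1), h3 l hl], fun i hi => ?_⟩
  rcases h4 i hi with h5 | hb
  · rcases k4 i (h5 _ h1) with k5 | k5
    · refine Or.inl fun l hl => ?_
      by_cases hlq : l < q.k
      · rw [k3 l hlq]; exact h5 l hl
      · exact k5 l (by omega)
    · exact Or.inr k5
  · exact Or.inr (hb.loc k1 (S.O_agree k2 k3))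

theorem activate (p : Cnd) (i : ℕ) : ∃ q : Cnd, S.Ext f p q ∧ i ∈ q.a q.k := by
  refine ⟨⟨p.k, p.g, fun l => if l < p.k then p.a l else insert i (p.a p.k), p.valid,
    fun l hl => by simp [not_lt.2 hl]⟩, ⟨le_rfl, fun _ _ => rfl, fun l hl => by simp [hl],
    fun j hj => Or.inl fun l hl => by simp [not_lt.2 hl, hj]⟩, by simp⟩

theorem numeric (hf : ∀ k, ∃ᶠ n in atTop, f n ^ k < n) (e J N : ℕ) (he : 1 ≤ e) :
    ∃ u m, N ≤ u ∧ (2 ^ u) ^ e ≤ m ∧ (2 ^ u * (2 ^ u) ^ e + 1) ^ (J * f m + 1) ≤ 2 ^ 2 ^ u := by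
  have ht : Tendsto (fun m => Nat.log 2 m / e) atTop atTop := by
    refine tendsto_atTop_atTop.2 fun b => ⟨2 ^ (b * e), fun m hm => ?_⟩
    rw [Nat.le_div_iff_mul_le (by omega)]
    exact Nat.le_log_of_pow_le (by norm_num) hm
  obtain ⟨m, h1, h2, h3, h4, h5⟩ := ((hf (e * 2)).and_eventually ((eventually_ge_atTop 1).and
    ((ht.eventually (eventually_ge_atTop N)).and ((ht.eventually (eventually_ge_atTop 1)).and
      (ht.eventually (ev_pow ((e + 2) ^ 2 * (4 * J ^ 2 + 2)) 2)))))).exists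
  set u := Nat.log 2 m / e with hu
  refine ⟨u, m, h3, ?_, ?_⟩
  · rw [← pow_mul]
    exact (Nat.pow_le_pow_right (by norm_num) (Nat.div_mul_le_self _ _)).trans
      (Nat.pow_log_le_self 2 (by omega))
  · have k1 : m < (2 * 2 ^ u) ^ e := by
      rw [← pow_succ', ← pow_mul]
      refine (Nat.lt_pow_succ_log_self (by norm_num : 1 < 2) m).trans_le
        (Nat.pow_le_pow_right (by norm_num) ?_)
      rw [mul_comm]
      exact Nat.lt_mul_div_succ _ (by omega)
    have k2 : f m ^ 2 < 2 * 2 ^ u := by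
      rw [mul_comm e, pow_mul] at h1
      exact lt_of_pow_lt_pow_left₀ e (by positivity) (h1.trans k1)
    have k3 : 2 ^ u * (2 ^ u) ^ e + 1 ≤ 2 ^ ((e + 2) * u) := by
      have : 2 ^ ((e + 2) * u) = 2 ^ u * (2 ^ u * (2 ^ u) ^ e) := by ring
      have h6 : 2 ≤ 2 ^ u := by
        calc 2 = 2 ^ 1 := rfl
          _ ≤ 2 ^ u := Nat.pow_le_pow_right (by norm_num) h4
      have h7 : 1 ≤ 2 ^ u * (2 ^ u) ^ e := Nat.succ_le_of_lt (by positivity)
      rw [this]
      nlinarith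
    refine (Nat.pow_le_pow_left k3 _).trans ?_
    rw [← pow_mul]
    refine Nat.pow_le_pow_right (by norm_num) ?_
    rw [← Nat.pow_le_pow_iff_left (n := 2) (by norm_num), mul_pow, mul_pow]
    have k4 : (J * f m + 1) ^ 2 ≤ (4 * J ^ 2 + 2) * 2 ^ u := by
      have h6 : 1 ≤ 2 ^ u := Nat.one_le_two_pow
      have h7 := Nat.mul_le_mul_left (J ^ 2) k2.le
      have h8 : (J * f m + 1) ^ 2 ≤ 2 * (J * f m) ^ 2 + 2 := by
        zify
        nlinarith [sq_nonneg ((J : ℤ) * f m - 1)]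
      nlinarith
    calc (e + 2) ^ 2 * u ^ 2 * (J * f m + 1) ^ 2
        ≤ (e + 2) ^ 2 * u ^ 2 * ((4 * J ^ 2 + 2) * 2 ^ u) := Nat.mul_le_mul_left _ k4
      _ = ((e + 2) ^ 2 * (4 * J ^ 2 + 2) * u ^ 2) * 2 ^ u := by ring
      _ ≤ 2 ^ u * 2 ^ u := Nat.mul_le_mul_right _ h5.le
      _ = (2 ^ u) ^ 2 := by ring

theorem diag (hf : ∀ k, ∃ᶠ n in atTop, f n ^ k < n) (t : Str → Alg) {e N : ℕ} (he : 1 ≤ e)
    (ht : ∀ z : Str, N ≤ z.length → (t z).Bdd ((2 ^ z.length) ^ e)) (p : Cnd) :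
    ∃ q : Cnd, S.Ext f p q ∧ p.k < q.k ∧ S.Forced t q := by
  induction hm : (p.a p.k).card using Nat.strong_induction_on generalizing p with
  | _ c ih =>
  obtain ⟨u, m, h1, h2, h3⟩ := numeric hf e c (max N p.k) he
  have hk : p.k < 2 ^ u := (le_of_max_le_right h1).trans_lt Nat.lt_two_pow_self
  have hv : ∀ (y : Str) (T : Finset Str), y.length = 2 ^ u → ∀ z : Str,
      ((fun z : Str => if z.length = u then (y, decide (z ∈ T)) else p.g z) z).1.length =
        2 ^ z.length := by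
    intro y T hy z
    by_cases h : z.length = u
    · simp [h, hy]
    · simp [h, p.valid z]
  have hlow : ∀ (y : Str) (T : Finset Str) (x : Str), 2 ^ x.length ≤ p.k →
      (if x.length = u then (y, decide (x ∈ T)) else p.g x) = p.g x := by
    intro y T x hx
    refine if_neg fun h => ?_
    rw [h] at hx
    omega
  by_cases hb : ∃ (y : Str) (T : Finset Str), y.length = 2 ^ u ∧ ∃ i ∈ p.a p.k, ∃ B,
      S.Bad f i (S.O (fun z => if z.length = u then (y, decide (z ∈ T)) else p.g z) p.a) B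
  · obtain ⟨y, T, hy, i, hi, B, hB⟩ := hb
    let q : Cnd := ⟨max B p.k, fun z => if z.length = u then (y, decide (z ∈ T)) else p.g z,
      fun l => if l < max B p.k then p.a l else (p.a p.k).erase i, hv y T hy,
      fun l hl => by simp [not_lt.2 hl]⟩
    have hq : S.Ext f p q := by
      refine ⟨le_max_right _ _, hlow y T, fun l hl => if_pos (by omega), fun j hj => ?_⟩
      by_cases e' : j = i
      · subst e'
        exact Or.inr (hB.loc (le_max_left _ _) fun s hs => S.O_agree (m := max B p.k)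
          (fun _ _ => rfl) (fun l hl => if_pos hl) s (hs.trans (le_max_left _ _)))
      · refine Or.inl fun l hl => ?_
        simp only [q]
        split_ifs
        · rw [p.stab l hl]; exact hj
        · exact Finset.mem_erase.2 ⟨e', hj⟩
    obtain ⟨q', k1, k2, k3⟩ := ih (c - 1) (by
      have := Finset.card_pos.2 ⟨i, hi⟩
      omega) q (by simp [q, Finset.card_erase_of_mem hi, hm])
    exact ⟨q', hq.trans k1, hq.1.trans_lt k2, k3⟩
  · push Not at hb
    obtain ⟨y, T, z, hy, hz, h⟩ := err (S := S) (f := f) (k := p.k) (g := p.g) (a := p.a)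
      (J := p.a p.k) t (fun z hz => hz ▸ ht z (hz ▸ le_of_max_le_left h1)) hk h2
      (fun l hl => by rw [p.stab l hl]) (hm ▸ h3) hb
    refine ⟨⟨max (2 ^ u) ((2 ^ u) ^ e), fun z => if z.length = u then (y, decide (z ∈ T)) else p.g z,
      p.a, hv y T hy, fun l hl => by
        rw [p.stab l (by omega), p.stab (max _ _) (by omega)]⟩,
      ⟨by simp only; omega, hlow y T, fun _ _ => rfl, fun i hi => Or.inl fun l hl => ?_⟩,
      by simp only; omega, (2 ^ u) ^ e, z, by simp [hz], le_max_right _ _,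
      hz ▸ ht z (hz ▸ le_of_max_le_left h1), by simpa [hz] using h⟩
    simp only
    rw [p.stab l hl]
    exact hi

theorem core (S : Sy) (hf : ∀ k, ∃ᶠ n in atTop, f n ^ k < n) (t : ℕ → Str → Alg)
    (ht : ∀ j, ∃ e N : ℕ, 1 ≤ e ∧ ∀ z : Str, N ≤ z.length → (t j z).Bdd ((2 ^ z.length) ^ e)) :
    ∃ (A : Str → Bool) (g : Str → Str × Bool), (∀ z, (g z).1.length = 2 ^ z.length) ∧
      (∀ b r, A (true :: b :: r) =
        decide (g (r.take (Nat.log 2 r.length)) = (r.drop (Nat.log 2 r.length), b))) ∧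
      (∀ i, (∃ B, S.Bad f i A B) ∨ ∃ k, ∀ z, k ≤ (S.code i z).length →
        (A (false :: S.code i z) = true ↔ S.Yes i z A)) ∧
      ∀ j, ∃ z : Str, ((t j z).val A ↔ (g z).2 = false) := by
  have step : ∀ (j : ℕ) (p : Cnd), ∃ q : Cnd, S.Ext f p q ∧ p.k < q.k ∧ S.Forced (t j) q ∧
      ∃ p' : Cnd, j ∈ p'.a p'.k ∧ S.Ext f p' q := by
    intro j p
    obtain ⟨e, N, he, h⟩ := ht j
    obtain ⟨p', h1, h2⟩ := activate (S := S) (f := f) p j
    obtain ⟨q, k1, k2, k3⟩ := diag (S := S) hf (t j) he h p'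
    exact ⟨q, h1.trans k1, h1.1.trans_lt k2, k3, p', h2, k1⟩
  choose F hF1 hF2 hF3 hF4 using step
  let p0 : Cnd := ⟨0, fun x => (List.replicate (2 ^ x.length) false, false), fun _ => ∅,
    fun _ => by simp, fun _ _ => rfl⟩
  let P : ℕ → Cnd := fun s => Nat.rec p0 (fun j p => F j p) s
  have hP : ∀ s, P (s + 1) = F s (P s) := fun _ => rfl
  have hmono : ∀ s s', s ≤ s' → S.Ext f (P s) (P s') := by
    intro s s' h
    induction h with
    | refl => exact Ext.refl _
    | step _ ih => exact ih.trans (hP _ ▸ hF1 _ _)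
  have hk : ∀ s, s ≤ (P s).k := by
    intro s
    induction s with
    | zero => exact Nat.zero_le _
    | succ s ih => have := hF2 s (P s); rw [hP]; omega
  let g : Str → Str × Bool := fun x => (P (2 ^ x.length)).g x
  let a : ℕ → Finset ℕ := fun l => (P (l + 1)).a l
  have hg : ∀ s (x : Str), 2 ^ x.length ≤ (P s).k → g x = (P s).g x := by
    intro s x hx
    rcases le_total s (2 ^ x.length) with h | h
    · exact (hmono _ _ h).2.1 x hx
    · exact ((hmono _ _ h).2.1 x (hk _)).symm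
  have ha : ∀ s, ∀ l < (P s).k, a l = (P s).a l := by
    intro s l hl
    rcases le_total s (l + 1) with h | h
    · exact (hmono _ _ h).2.2.1 l hl
    · exact ((hmono _ _ h).2.2.1 l (hk _)).symm
  have hO := fun s => S.O_agree (hg s) (ha s)
  refine ⟨S.O g a, g, fun x => (P (2 ^ x.length)).valid x, fun b r => by rw [O_test],
    fun i => ?_, fun j => ?_⟩
  · obtain ⟨p', h1, h2⟩ := hF4 i (P i)
    rw [← hP] at h2
    by_cases hb : ∃ B, S.Bad f i (S.O g a) B
    · exact Or.inl hb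
    refine Or.inr ⟨p'.k, fun z hz => ?_⟩
    have hia : i ∈ a (S.code i z).length := by
      set l := (S.code i z).length
      rcases (h2.trans (hmono (i + 1) (i + 1 + l) (by omega))).2.2.2 i h1 with h | hb'
      · rw [ha (i + 1 + l) l (lt_of_lt_of_le (by omega) (hk (i + 1 + l)))]
        exact h l hz
      · exact (hb ⟨_, hb'.loc le_rfl (hO (i + 1 + l))⟩).elim
    rw [O_code, decide_eq_true_iff]
    refine ⟨fun ⟨i', z', e, _, hy⟩ => ?_, fun hy => ⟨i, z, rfl, hia, hy⟩⟩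
    obtain ⟨rfl, rfl⟩ := S.code_inj _ _ _ _ e
    exact hy
  · obtain ⟨w, x, h2, h3, h4, h5⟩ := hF3 j (P j)
    rw [← hP] at h2 h3 h5
    exact ⟨x, by rw [h4.loc fun s hs => hO (j + 1) s (hs.trans h3), h5, hg (j + 1) x h2]⟩

end Sy

end Pool.Agent.MP_8c2300_lc
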