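import Pool.Agent.MP_8c2300_lc.Low2
import Pool.Agent.MP_8c2300_lc.Main

/-!
The exact lower density threshold for upward separation in relativized worlds.
-/

namespace Pool.Agent.MP_8c2300_lc

open Pool.Agent.PolyT Pool.Agent.H82 N487b59b3 Function Filter

/-- The coding string at polynomial scale. -/
noncomputable def codeP (Q : Polynomial ℕ) (i : ℕ) (z : Str) : Str :=
  bitEncode ((i, z, List.replicate (Q.eval z.length) false) : ℕ × Str × Str)

theorem decode_P {A : Str → Bool} {L : Set Str} (Q : Polynomial ℕ) (i k : ℕ)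
    (h : ∀ z : Str, k ≤ z.length → (A (false :: codeP Q i z) = true ↔ z ∈ L)) :
    L ∈ DT A id := by
  classical
  obtain ⟨F, hF, hl⟩ := exists_list_eval
    (show PolyT.Poly (fun a : Str × Str × Str => a.2.1) by fun_prop) Q
  let l := ((List.finite_length_lt Bool k).toFinset.filter (· ∈ L)).toList
  have h1 : PolyT.Poly (fun a : Str × Str × Str =>
      ((i, a.1, (F a).map (fun _ => false)) : ℕ × Str × Str)) := by fun_prop
  have h2 : PolyT.Poly (fun z : (Str × Str × Str) × Bool => decide (z.1.1 ∈ l)) :=
    (PolyT.Poly.mem PolyT.Poly.id.fst.fst (PolyT.Poly.const l)).congr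
      (fun _ => decide_eq_decide.2 Iff.rfl)
  obtain ⟨M, hM⟩ := one_query ((PolyT.Poly.const false).cons (PolyT.Poly.bitsOf h1))
    (show PolyT.Poly (fun z : (Str × Str × Str) × Bool =>
      bif ltB z.1.1.length k then decide (z.1.1 ∈ l) else z.2) by fun_prop)
  refine ⟨M, fun x => ?_⟩
  rw [hM]
  by_cases hx : x.length < k
  · simp [ltB, hx, l]
  · simp only [ltB, hx, decide_false, cond_false, List.map_const', hl, List.length_replicate]
    exact (h x (by omega)).symm

theorem low_main (d : ℕ → ℕ) (hd : ∀ k, ∃ᶠ n in atTop, d n ^ k < n) : ∃ A : Str → Bool,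
    (∀ S ∈ NT A id (fun _ => ⊤), (∀ n, {x ∈ S | x.length ≤ n}.encard ≤ d n) → S ∈ DT A id) ∧
    ∃ L : Set Str, L ∈ NT A (2 ^ ·) (fun _ => 1) ∧ Lᶜ ∈ NT A (2 ^ ·) (fun _ => 1) ∧
      L ∉ DT A (2 ^ ·) := by
  classical
  obtain ⟨e, he⟩ := exists_surjective_nat (OM × Polynomial ℕ)
  choose B hB using runAlg_bdd
  have hlen : ∀ Q i z, Q.eval z.length + z.length ≤ (codeP Q i z).length := fun Q i z => by
    simp only [codeP, length_enc_pair, Poly.enc_bools_length, List.length_replicate]
    omega
  let S : Sy :=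
    { yes := fun i => runAlg (e i).1 (e i).2 id
      bd := fun i z => (B (e i).1 (e i).2).eval z.length
      code := fun i => codeP (B (e i).1 (e i).2) i
      hyes := fun i z w => hB _ _ id z w le_rfl
      code_inj := fun i z i' z' h => by
        have := bitEncode_injective h
        simp only [Prod.mk.injEq] at this
        exact ⟨this.1, this.2.1⟩
      len1 := fun i z => le_trans (Nat.le_add_right _ _) (hlen _ _ _)
      len2 := fun i z => le_trans (Nat.le_add_left _ _) (hlen _ _ _) }
  obtain ⟨A, g, hv, hA, h1, h2⟩ := S.core hd (fun j z => runAlg (e j).1 0 (2 ^ ·) z []) (fun j => by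
    obtain ⟨D, hD⟩ := poly_le_pow (B (e j).1 0)
    refine ⟨2 ^ D, 1, Nat.one_le_two_pow, fun z hz =>
      (hB _ _ (2 ^ ·) z [] Nat.lt_two_pow_self.le).mono (hD _ ?_)⟩
    calc 2 = 2 ^ 1 := rfl
      _ ≤ 2 ^ z.length := Nat.pow_le_pow_right (by norm_num) hz)
  have test : ∀ (b : Bool) (x w : Str), w.length = 2 ^ x.length →
      (A (true :: b :: (x ++ w)) = true ↔ g x = (w, b)) := by
    intro b x w hw
    have : Nat.log 2 (x ++ w).length = x.length := by
      have := @Nat.lt_two_pow_self x.length
      refine Nat.log_eq_of_pow_le_of_lt_pow (by simp [hw]) ?_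
      rw [List.length_append, hw, pow_succ]
      omega
    rw [hA, this]
    simp
  have hS : ∀ b : Bool, {x | (g x).2 = b} ∈ NT A (2 ^ ·) (fun _ => 1) := by
    intro b
    obtain ⟨M, hM⟩ := one_query
      (show PolyT.Poly (fun a : Str × Str × Str => true :: b :: (a.1 ++ a.2.2)) by fun_prop)
      (show PolyT.Poly (fun z : (Str × Str × Str) × Bool =>
        eqB z.1.2.2.length z.1.2.1.length && z.2) by fun_prop)
    have : ∀ x w, M.Acc A (2 ^ ·) x w ↔ g x = (w, b) := fun x w => by
      rw [hM]
      simp only [Bool.and_eq_true, eqB_iff, List.length_replicate]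
      exact ⟨fun h => (test b x w h.1).1 h.2, fun h => by
        have hw : w.length = 2 ^ x.length := by rw [← hv x, h]
        exact ⟨hw, (test b x w hw).2 h⟩⟩
    refine ⟨M, Polynomial.X, fun x => ⟨?_, Set.encard_le_one_iff.2 fun w w' hw hw' => ?_⟩⟩
    · simp only [this, Set.mem_ofPred_eq, Polynomial.eval_X]
      exact ⟨fun h => ⟨(g x).1, (hv x).le, by rw [← h]⟩, fun ⟨w, _, h⟩ => by rw [h]⟩
    · simp only [this, Set.mem_ofPred_eq] at hw hw'
      exact (Prod.mk.inj (hw.2.symm.trans hw'.2)).1
  refine ⟨A, ?_, {x | (g x).2 = true}, hS true, ?_, ?_⟩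
  · rintro L ⟨M, p, h⟩ hc
    obtain ⟨i, hi⟩ := he (M, p)
    have hy : ∀ z, S.Yes i z A ↔ z ∈ L := fun z => by
      simp only [Sy.Yes, S, hi, runAlg, (h z).1]
    obtain ⟨k, hk⟩ := (h1 i).resolve_left (by
      rintro ⟨B, m, X, k1, k2⟩
      have := (Set.encard_le_encard (show (X : Set Str) ⊆ {x ∈ L | x.length ≤ m} from
        fun x hx => ⟨(hy x).1 (k2 x hx).2.2, (k2 x hx).1⟩)).trans (hc m)
      rw [Set.encard_coe_eq_coe_finsetCard, Nat.cast_le] at this
      omega)
    exact decode_P (B (e i).1 (e i).2) i k fun z hz =>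
      (hk z (hz.trans (S.len2 i z))).trans (hy z)
  · convert hS false using 1
    ext x
    simp
  · rintro ⟨M, hM⟩
    obtain ⟨j, hj⟩ := he (M, 0)
    obtain ⟨x, k2⟩ := h2 j
    simp only [hj, runAlg, List.length_nil, Nat.zero_le, true_and] at k2
    have := hM x
    rw [k2] at this
    simp at this

theorem answers_red (A : Str → Bool) (next : (Str × Str × Str) × Str → Str)
    (red : Str × Str × Str → Str × Str × Str) (a : Str × Str × Str) (T : ℕ) :
    answers A (fun z => next (red z.1, z.2)) a T = answers A next (red a) T := by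
  induction T with
  | zero => rfl
  | succ T ih => simp only [answers, ih]

theorem take_answers (A : Str → Bool) (next : (Str × Str × Str) × Str → Str)
    (a : Str × Str × Str) {T T' : ℕ} (h : T ≤ T') :
    (answers A next a T').take T = answers A next a T := by
  induction h with
  | refl => exact List.take_of_length_le (length_answers _ _ _ _).le
  | step h ih =>
    rw [answers, List.take_append_of_le_length (by rw [length_answers]; exact h), ih]

theorem simul (M : OM) {red : Str × Str × Str → Str × Str × Str} {chk : Str × Str × Str → Bool}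
    (hred : PolyT.Poly red) (hchk : PolyT.Poly chk) (r : Polynomial ℕ) :
    ∃ M' : OM, ∀ A s x w,
      (M'.Acc A s x w → chk (x, List.replicate (s x.length) true, w) = true) ∧
      ∀ (s' : ℕ → ℕ) (x' w' : Str), red (x, List.replicate (s x.length) true, w) =
        (x', List.replicate (s' x'.length) true, w') → s' x'.length ≤ r.eval (s x.length) →
        (M'.Acc A s x w ↔ chk (x, List.replicate (s x.length) true, w) = true ∧
          M.Acc A s' x' w') := by
  obtain ⟨F, hF, hl⟩ := exists_list_eval
    (show PolyT.Poly (fun a : Str × Str × Str => (red a).2.1) by fun_prop) M.q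
  have h1 := (poly_iff _).2 M.next_poly
  have h2 := (poly_iff _).2 M.out_poly
  refine ⟨⟨fun z => M.next (red z.1, z.2),
    fun z => chk z.1 && M.out (red z.1, z.2.take (F z.1).length), M.q.comp r,
    (poly_iff _).1 (by fun_prop), (poly_iff _).1 (by fun_prop)⟩,
    fun A s x w => ⟨fun h => ?_, fun s' x' w' e hs => ?_⟩⟩
  · simp only [OM.Acc, Bool.and_eq_true] at h
    exact h.1
  · simp only [OM.Acc, Bool.and_eq_true, answers_red, hl, e, List.length_replicate,
      Polynomial.eval_comp]
    rw [take_answers _ _ _ (eval_mono M.q hs)]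

theorem ofBits_pow (x : Str) : ofBits (x.map (fun _ => false) ++ [true]) = 2 ^ x.length := by
  induction x with
  | nil => rfl
  | cons b x ih => simp only [List.map_cons, List.cons_append, ofBits_cons, ih]; simp [pow_succ']

theorem length_delimit (x : Str) : (delimit x).length = 2 * x.length + 1 := by
  induction x with
  | nil => rfl
  | cons b x ih => simp [delimit, ih]; omega

theorem high_main (d : ℕ → ℕ) {k : ℕ} (hd : ∀ᶠ n in atTop, n ≤ d n ^ k) (A : Str → Bool)
    (h : ∀ S ∈ NT A id (fun _ => ⊤), (∀ n, {x ∈ S | x.length ≤ n}.encard ≤ d n) → S ∈ DT A id) :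
    NT A (2 ^ ·) (fun _ => ⊤) = DT A (2 ^ ·) := by
  classical
  refine subset_antisymm ?_ (DT_sub_NT fun _ => le_top)
  rintro L ⟨M, p, hM⟩
  obtain ⟨N, hN⟩ := eventually_atTop.1 hd
  have hk : k ≠ 0 := by
    rintro rfl
    have := hN (N + 2) (by omega)
    simp at this
  let Q : Polynomial ℕ := (2 * Polynomial.X) ^ k + Polynomial.C N + Polynomial.X
  have hQ : ∀ n, Q.eval n = (2 * n) ^ k + N + n := fun n => by simp [Q]
  let pad : Str → Str := fun x => delimit x ++ List.replicate (Q.eval (2 ^ x.length)) false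
  have hsel : ∀ x, sel true (pad x) = x := fun x => by simp [pad, sel_pair]
  have hpad : ∀ x, (pad x).length = 2 * x.length + 1 + Q.eval (2 ^ x.length) := fun x => by
    simp only [pad, List.length_append, length_delimit, List.length_replicate]
  have hdl : PolyT.Poly (fun x : Str => delimit x) :=
    PolyT.Poly.bitsOf (PolyT.Poly.toRaw PolyT.Poly.id).delimit
  have hsl : PolyT.Poly (fun x : Str => sel true x) :=
    PolyT.Poly.bitsOf ((PolyT.Poly.toRaw PolyT.Poly.id).sel true)
  have hpw : PolyT.Poly (fun x : Str => 2 ^ x.length) :=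
    (PolyT.Poly.ofBits (show PolyT.Poly (fun x : Str => x.map (fun _ => false) ++ [true]) by
      fun_prop)).congr ofBits_pow
  have hc : PolyT.Poly (fun a : Str × Str × Str => a.2.1.take (2 ^ (sel true a.1).length)) :=
    PolyT.Poly.take (by fun_prop) (hpw.comp (hsl.comp (by fun_prop)))
  obtain ⟨F, hF, hFl⟩ := exists_list_eval hc Q
  obtain ⟨G, hG, hGl⟩ := exists_list_eval hc p
  have hs1 : PolyT.Poly (fun a : Str × Str × Str => sel true a.1) := hsl.comp (by fun_prop)
  have hs2 : PolyT.Poly (fun a : Str × Str × Str => delimit (sel true a.1)) := hdl.comp hs1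
  have hs3 : PolyT.Poly (fun a : Str × Str × Str => 2 ^ (sel true a.1).length) := hpw.comp hs1
  obtain ⟨M₁, hM₁⟩ := simul M
    (red := fun a => (sel true a.1, a.2.1.take (2 ^ (sel true a.1).length), a.2.2))
    (chk := fun a => ltB (2 ^ (sel true a.1).length) a.2.1.length &&
      eqB a.1 (delimit (sel true a.1) ++ (F a).map (fun _ => false)) &&
      !ltB (G a).length a.2.2.length)
    (hs1.pair (hc.pair (by fun_prop)))
    (((p_ltB hs3 (by fun_prop)).and (p_eqB (by fun_prop) (hs2.append (by fun_prop)))).and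
      (by fun_prop)) Polynomial.X
  have hacc : ∀ v w : Str, M₁.Acc A id v w ↔ v = pad (sel true v) ∧
      w.length ≤ p.eval (2 ^ (sel true v).length) ∧ M.Acc A (2 ^ ·) (sel true v) w := by
    intro v w
    by_cases hlt : 2 ^ (sel true v).length < v.length
    · rw [(hM₁ A id v w).2 (2 ^ ·) (sel true v) w (by simp [hlt.le]) (by simp [hlt.le])]
      simp [hFl, hGl, hlt, hlt.le, pad, List.map_const', and_assoc]
    · refine iff_of_false (fun h => hlt ?_) (fun h => hlt ?_)
      · have := (hM₁ A id v w).1 h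
        simp only [Bool.and_eq_true, ltB_iff, List.length_replicate, id] at this
        exact this.1.1
      · have := congrArg List.length h.1
        rw [hpad, hQ] at this
        omega
  refine (h (pad '' L) ⟨M₁, p, fun v => ⟨?_, le_top⟩⟩ (fun n => ?_)).elim fun M₂ hM₂ => ?_
  rotate_right
  · obtain ⟨F', hF', hFl'⟩ := exists_list_eval
      (show PolyT.Poly (fun a : Str × Str × Str => a.2.1) by fun_prop) Q
    have hv : PolyT.Poly (fun a : Str × Str × Str => delimit a.1 ++ (F' a).map (fun _ => false)) :=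
      (hdl.comp (by fun_prop)).append (by fun_prop)
    obtain ⟨M₃, hM₃⟩ := simul M₂
      (red := fun a => (delimit a.1 ++ (F' a).map (fun _ => false),
        (delimit a.1 ++ (F' a).map (fun _ => false)).map (fun _ => true), []))
      (chk := fun _ => true) (hv.pair ((p_map (by fun_prop) hv).pair (by fun_prop)))
      (by fun_prop) (2 * Polynomial.X + 1 + Q)
    refine ⟨M₃, fun x => ?_⟩
    rw [(hM₃ A (2 ^ ·) x []).2 id (pad x) [] (by
      simp only [List.map_const', hFl', List.length_replicate, id, pad]) (by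
      have := @Nat.lt_two_pow_self x.length
      simp only [id, hpad, Polynomial.eval_add, Polynomial.eval_mul, Polynomial.eval_X,
        Polynomial.eval_ofNat, Polynomial.eval_one]
      omega), ← hM₂]
    refine ⟨fun hx => ⟨rfl, x, hx, rfl⟩, fun ⟨_, y, hy, e⟩ => ?_⟩
    rwa [← hsel x, ← e, hsel]
  · simp only [hacc, id]
    constructor
    · rintro ⟨x, hx, rfl⟩
      obtain ⟨w, h1, h2⟩ := (hM x).1.1 hx
      refine ⟨w, h1.trans (eval_mono p ?_), by rw [hsel], by rwa [hsel], by rwa [hsel]⟩
      rw [hpad, hQ, ← add_assoc]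
      exact Nat.le_add_left _ _
    · rintro ⟨w, -, h1, h2, h3⟩
      exact ⟨_, (hM _).1.2 ⟨w, h2, h3⟩, h1.symm⟩
  · by_cases hne : {x ∈ pad '' L | x.length ≤ n}.Nonempty
    swap
    · rw [Set.not_nonempty_iff_eq_empty.1 hne]
      simp
    have key : ∀ x : Str, (pad x).length ≤ n → 2 ^ (x.length + 1) ≤ d n := fun x hx => by
      rw [hpad, hQ] at hx
      rw [← Nat.pow_le_pow_iff_left hk, pow_succ']
      generalize 2 ^ x.length = c at hx ⊢
      exact le_trans (by omega) (hN n (by omega))
    obtain ⟨_, ⟨x0, -, rfl⟩, hx0⟩ := hne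
    have hpos : d n ≠ 0 := by
      have := key x0 hx0
      have : 0 < 2 ^ (x0.length + 1) := by positivity
      omega
    have hsub : {x ∈ pad '' L | x.length ≤ n} ⊆
        pad '' ((Finset.range (Nat.log 2 (d n))).biUnion rows : Finset Str) := by
      rintro _ ⟨⟨x, -, rfl⟩, hx⟩
      refine ⟨x, ?_, rfl⟩
      simp only [Finset.coe_biUnion, Finset.coe_range, Set.mem_iUnion, Finset.mem_coe, mem_rows]
      exact ⟨x.length, Nat.le_log_of_pow_le (by norm_num) (key x hx), rfl⟩
    refine (Set.encard_le_encard hsub).trans ((Set.encard_image_le _ _).trans ?_)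
    rw [Set.encard_coe_eq_coe_finsetCard, Nat.cast_le]
    refine Finset.card_biUnion_le.trans ?_
    simp only [card_rows]
    exact (Nat.geomSum_lt le_rfl fun _ => Finset.mem_range.1).le.trans (Nat.pow_log_le_self 2 hpos)

end Pool.Agent.MP_8c2300_lc
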